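import Mathlib.Combinatorics.SimpleGraph.Acyclic
import Mathlib.Combinatorics.SimpleGraph.Clique
import Mathlib.Order.Lattice.Nat

/-!
Definitions for the statement: induced minors, tree decompositions, tree-independence number.
-/

namespace Pool.Agent.Work.MP_7f4e13_co

/-- Contraction of the edge `u v`: the vertex `v` is removed and `u` gets its neighbours. -/
def contract {V : Type} (G : SimpleGraph V) (u v : V) : SimpleGraph {x // x ≠ v} :=
  SimpleGraph.fromRel fun a b => G.Adj a b ∨ (a.1 = u ∧ G.Adj v b)

/-- `H` is an induced minor of `G`: a graph isomorphic to `H` arises from `G` by deleting vertices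
and contracting edges. -/
inductive IsIndMinor {W : Type} (H : SimpleGraph W) : {V : Type} → SimpleGraph V → Prop
  | iso {V : Type} {G : SimpleGraph V} : Nonempty (H ≃g G) → IsIndMinor H G
  | del {V : Type} {G : SimpleGraph V} (v : V) :
      IsIndMinor H (G.induce {x | x ≠ v}) → IsIndMinor H G
  | con {V : Type} {G : SimpleGraph V} (u v : V) :
      G.Adj u v → IsIndMinor H (contract G u v) → IsIndMinor H G

/-- A tree decomposition of `G`. -/
structure TreeDecomp {V : Type} (G : SimpleGraph V) where
  /-- The nodes of the tree. -/
  ι : Type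
  fin : Finite ι
  /-- The tree. -/
  T : SimpleGraph ι
  tree : T.IsTree
  /-- The bags. -/
  bag : ι → Set V
  cover : ∀ v, ∃ t, v ∈ bag t
  edge : ∀ u v, G.Adj u v → ∃ t, u ∈ bag t ∧ v ∈ bag t
  conn : ∀ v, (T.induce {t | v ∈ bag t}).Connected

/-- The tree-independence number: the least `w` such that some tree decomposition has all its
bags of independence number at most `w`. -/
noncomputable def treeAlpha {V : Type} (G : SimpleGraph V) : ℕ :=
  sInf {w | ∃ D : TreeDecomp G, ∀ t, (G.induce (D.bag t)).indepNum ≤ w}

end Pool.Agent.Work.MP_7f4e13_co
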