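import Pool.Agent.Work.MP_97603a_co.Menger
import Pool.Agent.Lib.Ramsey.Finite
import Mathlib
import Pool.Agent.Work.MP_97603a_co.Basic
import Pool.Agent.Work.MP_7f4e13_co.Defs

-- merged part: Pool.Agent.Work.MP_7f4e13_co.Basic
section
/-! Basic notions: connected sets, brambles, paths, minor models, balls, quotients. -/

namespace Pool.Agent.Work.MP_7f4e13_co

open Pool.Agent.Work.MP_97603a_co Set

variable {V : Type}

/-- `S` is nonempty and induces a connected subgraph. -/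
def Conn (G : SimpleGraph V) (S : Set V) : Prop :=
  S.Nonempty ∧ ∀ a ∈ S, ∀ b ∈ S, Reach G.Adj S a b

/-- some edge joins `A` and `B` -/
def Nb (G : SimpleGraph V) (A B : Set V) : Prop := ∃ a ∈ A, ∃ b ∈ B, G.Adj a b

/-- `A` and `B` meet or are joined by an edge -/
def Touch (G : SimpleGraph V) (A B : Set V) : Prop := (A ∩ B).Nonempty ∨ Nb G A B

/-- a bramble of order at least `t` whose members lie in `X` -/
structure IsBr (G : SimpleGraph V) (X : Set V) (t : ℕ) (𝓑 : Set (Set V)) : Prop where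
  sub : ∀ B ∈ 𝓑, B ⊆ X
  conn : ∀ B ∈ 𝓑, Conn G B
  touch : ∀ B ∈ 𝓑, ∀ B' ∈ 𝓑, Touch G B B'
  ord : ∀ Z : Finset V, Z.card < t → ∃ B ∈ 𝓑, ∀ z ∈ Z, z ∉ B

def Br (G : SimpleGraph V) (X : Set V) (t : ℕ) : Prop := ∃ 𝓑, IsBr G X t 𝓑

/-- a path `p 0, ..., p m` -/
structure Pth (G : SimpleGraph V) where
  p : ℕ → V
  m : ℕ
  adj : ∀ i < m, G.Adj (p i) (p (i + 1))
  inj : ∀ i ≤ m, ∀ j ≤ m, p i = p j → i = j

def Pth.seg {G : SimpleGraph V} (P : Pth G) (a b : ℕ) : Set V :=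
  {v | ∃ i, a ≤ i ∧ i ≤ b ∧ P.p i = v}

def Pth.set {G : SimpleGraph V} (P : Pth G) : Set V := P.seg 0 P.m

/-- a model of `F` as a minor of `G` -/
structure Model {W : Type} (G : SimpleGraph V) (F : SimpleGraph W) (Y : W → Set V) : Prop where
  conn : ∀ w, Conn G (Y w)
  disj : ∀ w w', w ≠ w' → Disjoint (Y w) (Y w')
  adj : ∀ w w', F.Adj w w' → Nb G (Y w) (Y w')

def Minor {W : Type} (G : SimpleGraph V) (F : SimpleGraph W) : Prop := ∃ Y, Model G F Y

def IndMinor {W : Type} (G : SimpleGraph V) (F : SimpleGraph W) : Prop :=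
  ∃ Y, Model G F Y ∧ ∀ w w', w ≠ w' → Nb G (Y w) (Y w') → F.Adj w w'

/-- no vertex has `d` pairwise non-adjacent neighbours -/
def StarFree (G : SimpleGraph V) (d : ℕ) : Prop :=
  ∀ (v : V) (S : Finset V), (∀ x ∈ S, G.Adj v x) → (∀ x ∈ S, ∀ y ∈ S, ¬ G.Adj x y) → S.card < d

/-- neighbours inside `X` -/
def nbr (G : SimpleGraph V) (X : Set V) (v : V) : Set V := {u | u ∈ X ∧ G.Adj v u}

def DegLe (G : SimpleGraph V) (X : Set V) (D : ℕ) : Prop := ∀ v ∈ X, (nbr G X v).ncard ≤ D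

/-- branch vertices of `G[X]` -/
def Brn (G : SimpleGraph V) (X : Set V) (v : V) : Prop := v ∈ X ∧ 3 ≤ (nbr G X v).ncard

/-- vertices reached from `A` in at most `r` steps inside `X` -/
def ball (G : SimpleGraph V) (X A : Set V) : ℕ → Set V
  | 0 => A
  | r + 1 => ball G X A r ∪ {u | u ∈ X ∧ ∃ v ∈ ball G X A r, G.Adj v u}

/-- the quotient of `G[X]` by the fibres of `q` -/
def quot {ι : Type} (G : SimpleGraph V) (X : Set V) (q : V → ι) : SimpleGraph ι where
  Adj a b := a ≠ b ∧ ∃ u ∈ X, ∃ v ∈ X, q u = a ∧ q v = b ∧ G.Adj u v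
  symm := ⟨fun _ _ ⟨h, u, hu, v, hv, h1, h2, h3⟩ => ⟨h.symm, v, hv, u, hu, h2, h1, h3.symm⟩⟩
  loopless := ⟨fun _ h => h.1 rfl⟩

def fib {ι : Type} (X : Set V) (q : V → ι) (a : ι) : Set V := {v | v ∈ X ∧ q v = a}

/-- tree decompositions -/
structure IsTD {ι : Type} (G : SimpleGraph V) (T : SimpleGraph ι) (B : ι → Finset V) : Prop where
  tree : T.IsTree
  cover : ∀ v, ∃ t, v ∈ B t
  edge : ∀ u v, G.Adj u v → ∃ t, u ∈ B t ∧ v ∈ B t
  conn : ∀ v, (T.induce {t | v ∈ B t}).Connected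

/-- two families of `s` disjoint paths meeting each other -/
def Mesh (G : SimpleGraph V) (s : ℕ) : Prop :=
  ∃ A B : Fin s → Pth G, (∀ i j, i ≠ j → Disjoint (A i).set (A j).set) ∧
    (∀ i j, i ≠ j → Disjoint (B i).set (B j).set) ∧ ∀ i j, ((A i).set ∩ (B j).set).Nonempty

/-- `l` disjoint paths, each pair linked by `N` paths, all linking paths disjoint -/
def Net (G : SimpleGraph V) (l N : ℕ) : Prop :=
  ∃ (P : Fin l → Pth G) (Q : (Fin l × Fin l) × Fin N → Pth G),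
    (∀ i j, i ≠ j → Disjoint (P i).set (P j).set) ∧
    (∀ e e', e ≠ e' → Disjoint (Q e).set (Q e').set) ∧
    ∀ e, ((Q e).set ∩ (P e.1.1).set).Nonempty ∧ ((Q e).set ∩ (P e.1.2).set).Nonempty

variable {G : SimpleGraph V} {S S' A B X X' : Set V} {a b c : V}

lemma reach_symm (h : Reach G.Adj S a b) : Reach G.Adj S b a :=
  h.ind (P := fun x => Reach G.Adj S x a) (Reach.refl h.1)
    fun _ _ _ ih he hy => Reach.head hy he.symm ih

lemma reach_adj (ha : a ∈ S) (hb : b ∈ S) (h : G.Adj a b) : Reach G.Adj S a b :=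
  (Reach.refl ha).tail h hb

lemma conn_of_root (ha : a ∈ S) (h : ∀ b ∈ S, Reach G.Adj S a b) : Conn G S :=
  ⟨⟨a, ha⟩, fun x hx y hy => (reach_symm (h x hx)).trans (h y hy)⟩

lemma conn_singleton (a : V) : Conn G {a} :=
  conn_of_root rfl fun _ hb => hb ▸ Reach.refl rfl

/-- the set of vertices reachable from `a` inside `S` -/
lemma conn_reach (ha : a ∈ S) : Conn G {x | Reach G.Adj S a x} :=
  conn_of_root (Reach.refl ha) fun _ hb => Reach.restrict hb fun _ h _ => h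

lemma Nb.symm (h : Nb G A B) : Nb G B A :=
  let ⟨a, ha, b, hb, e⟩ := h; ⟨b, hb, a, ha, e.symm⟩

lemma Nb.mono {A' B' : Set V} (h : Nb G A B) (h1 : A ⊆ A') (h2 : B ⊆ B') : Nb G A' B' :=
  let ⟨a, ha, b, hb, e⟩ := h; ⟨a, h1 ha, b, h2 hb, e⟩

lemma Touch.symm (h : Touch G A B) : Touch G B A :=
  h.imp (fun h => by rwa [inter_comm]) Nb.symm

lemma Touch.mono {A' B' : Set V} (h : Touch G A B) (h1 : A ⊆ A') (h2 : B ⊆ B') : Touch G A' B' :=
  h.imp (fun h => h.mono (inter_subset_inter h1 h2)) fun h => h.mono h1 h2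

lemma Conn.union (hA : Conn G A) (hB : Conn G B) (h : Touch G A B) : Conn G (A ∪ B) := by
  rcases h with ⟨a, ha, hb⟩ | ⟨a, ha, b, hb, e⟩
  · refine conn_of_root (Or.inl ha) ?_
    rintro x (hx | hx)
    · exact (hA.2 a ha x hx).mono subset_union_left
    · exact (hB.2 a hb x hx).mono subset_union_right
  · refine conn_of_root (Or.inl ha) ?_
    rintro x (hx | hx)
    · exact (hA.2 a ha x hx).mono subset_union_left
    · exact Reach.head (Or.inl ha) e ((hB.2 b hb x hx).mono subset_union_right)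

/-- a connected core with connected pieces touching it -/
lemma Conn.union_iUnion {ι : Sort*} {K : ι → Set V} (hA : Conn G A) (hK : ∀ i, Conn G (K i))
    (h : ∀ i, Touch G A (K i)) : Conn G (A ∪ ⋃ i, K i) := by
  obtain ⟨a, ha⟩ := hA.1
  refine conn_of_root (Or.inl ha) ?_
  rintro x (hx | hx)
  · exact (hA.2 a ha x hx).mono subset_union_left
  · obtain ⟨i, hi⟩ := mem_iUnion.1 hx
    exact ((hA.union (hK i) (h i)).2 a (Or.inl ha) x (Or.inr hi)).mono
      (union_subset_union_right _ (subset_iUnion K i))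

lemma Conn.mono_graph {G' : SimpleGraph V} (h : Conn G S)
    (hG : ∀ x ∈ S, ∀ y ∈ S, G.Adj x y → G'.Adj x y) : Conn G' S :=
  ⟨h.1, fun a ha b hb => (h.2 a ha b hb).mono' (fun x y hx hy e => hG x hx y hy e) subset_rfl⟩

/-- a connected set with two different points: every point has a neighbour in it -/
lemma Conn.exists_adj (h : Conn G S) (ha : a ∈ S) (hb : b ∈ S) (hab : a ≠ b) :
    ∃ c ∈ S, G.Adj a c := by
  rcases (h.2 a ha b hb).cases_head with e | ⟨c, e, hc⟩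
  · exact absurd e hab
  · exact ⟨c, hc.1, e⟩

/-- a connected set meeting a closed set `C` and avoiding its boundary lies in `C` -/
lemma Conn.subset_of_closed (h : Conn G S) (ha : a ∈ S) {C : Set V} (hc : a ∈ C)
    (hcl : ∀ x ∈ C, ∀ y ∈ S, G.Adj x y → y ∈ C) : S ⊆ C := fun b hb =>
  (h.2 a ha b hb).ind (P := fun x => x ∈ C) hc fun x y _ hx e hy => hcl x hx y hy e

lemma Conn.connected (h : Conn G S) : (G.induce S).Connected := by
  have : Nonempty S := h.1.to_subtype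
  refine ⟨fun a b => ?_⟩
  have := (h.2 a a.2 b b.2).ind
    (P := fun x => ∀ hx : x ∈ S, (G.induce S).Reachable a ⟨x, hx⟩) (fun _ => .refl _)
    fun x y hx ih e hy _ => (ih hx.right_mem).trans (SimpleGraph.Adj.reachable e)
  exact this b.2

lemma IsBr.mono {t t' : ℕ} {𝓑 : Set (Set V)} (h : IsBr G X t 𝓑) (hX : X ⊆ X') (ht : t' ≤ t) :
    IsBr G X' t' 𝓑 :=
  ⟨fun B hB => (h.sub B hB).trans hX, h.conn, h.touch, fun Z hZ => h.ord Z (hZ.trans_le ht)⟩

lemma Br.mono {t t' : ℕ} (h : Br G X t) (hX : X ⊆ X') (ht : t' ≤ t) : Br G X' t' :=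
  let ⟨_, h⟩ := h; ⟨_, h.mono hX ht⟩

namespace Pth

lemma mem_set {P : Pth G} {v : V} : v ∈ P.set ↔ ∃ i ≤ P.m, P.p i = v := by
  simp [set, seg]

lemma p_mem_set (P : Pth G) {i : ℕ} (h : i ≤ P.m) : P.p i ∈ P.set := mem_set.2 ⟨i, h, rfl⟩

lemma p_mem_seg (P : Pth G) {i a b : ℕ} (h : a ≤ i) (h' : i ≤ b) : P.p i ∈ P.seg a b :=
  ⟨i, h, h', rfl⟩

lemma seg_mono (P : Pth G) {a b a' b' : ℕ} (h : a' ≤ a) (h' : b ≤ b') :
    P.seg a b ⊆ P.seg a' b' := fun _ ⟨i, h1, h2, e⟩ => ⟨i, h.trans h1, h2.trans h', e⟩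

lemma seg_subset (P : Pth G) (a : ℕ) {b : ℕ} (h : b ≤ P.m) : P.seg a b ⊆ P.set :=
  P.seg_mono (Nat.zero_le _) h

lemma conn_seg (P : Pth G) {a b : ℕ} (h : a ≤ b) (h' : b ≤ P.m) : Conn G (P.seg a b) := by
  refine conn_of_root (P.p_mem_seg le_rfl h) ?_
  rintro _ ⟨i, h1, h2, rfl⟩
  exact reach_seg P.adj a i h1 (h2.trans h') fun n h3 h4 => P.p_mem_seg h3 (h4.trans h2)

lemma conn_set (P : Pth G) : Conn G P.set := P.conn_seg (Nat.zero_le _) le_rfl

lemma disjoint_seg (P : Pth G) {a b a' b' : ℕ} (h : b < a') (h' : b' ≤ P.m) :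
    Disjoint (P.seg a b) (P.seg a' b') := by
  rw [Set.disjoint_left]
  rintro _ ⟨i, -, h2, rfl⟩ ⟨j, h3, h4, e⟩
  have := P.inj j (by omega) i (by omega) e
  omega

/-- the subpath from index `a` to index `b` -/
def sub (P : Pth G) (a b : ℕ) (h : b ≤ P.m) : Pth G where
  p i := P.p (a + i)
  m := b - a
  adj i hi := P.adj (a + i) (by omega)
  inj i hi j hj e := by
    by_cases hab : a ≤ b
    · have := P.inj (a + i) (by omega) (a + j) (by omega) e
      omega
    · omega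

lemma sub_set (P : Pth G) {a b : ℕ} (hab : a ≤ b) (h : b ≤ P.m) :
    (P.sub a b h).set = P.seg a b := by
  ext v
  rw [mem_set]
  constructor
  · rintro ⟨i, hi, rfl⟩
    exact P.p_mem_seg (by omega) (by change i ≤ b - a at hi; omega)
  · rintro ⟨i, h1, h2, rfl⟩
    exact ⟨i - a, by change _ ≤ b - a; omega, congrArg P.p (by omega)⟩

end Pth

/-- a walk inside `S` contains a path -/
lemma exists_pth (h : Reach G.Adj S a b) :
    ∃ P : Pth G, P.p 0 = a ∧ P.p P.m = b ∧ P.set ⊆ S := by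
  obtain ⟨m, p, h1, h2, h3, h4, h5⟩ := h.exists_chain
  refine ⟨⟨p, m, h3, h5⟩, h1, h2, fun v hv => ?_⟩
  obtain ⟨i, hi, rfl⟩ := Pth.mem_set.1 hv
  exact h4 i hi

lemma nbr_mono (h : X ⊆ X') (v : V) : nbr G X v ⊆ nbr G X' v := fun _ hu => ⟨h hu.1, hu.2⟩

lemma DegLe.mono [Finite V] {D : ℕ} (h : DegLe G X' D) (hX : X ⊆ X') : DegLe G X D :=
  fun v hv => (ncard_le_ncard (nbr_mono hX v)).trans (h v (hX hv))

lemma Brn.mono [Finite V] {v : V} (h : Brn G X v) (hX : X ⊆ X') : Brn G X' v :=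
  ⟨hX h.1, h.2.trans (ncard_le_ncard (nbr_mono hX v))⟩

section ball

lemma ball_succ_of_mem {r : ℕ} (h : a ∈ ball G X A r) : a ∈ ball G X A (r + 1) := Or.inl h

lemma ball_succ_of_adj {r : ℕ} (h : a ∈ ball G X A r) (e : G.Adj a b) (hb : b ∈ X) :
    b ∈ ball G X A (r + 1) := Or.inr ⟨hb, a, h, e⟩

lemma ball_mono_r {r s : ℕ} (h : r ≤ s) : ball G X A r ⊆ ball G X A s := by
  induction s, h using Nat.le_induction with
  | base => exact subset_rfl
  | succ s _ ih => exact ih.trans subset_union_left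

lemma subset_ball (r : ℕ) : A ⊆ ball G X A r := ball_mono_r (Nat.zero_le r)

lemma ball_mono (hX : X ⊆ X') (hA : A ⊆ B) (r : ℕ) : ball G X A r ⊆ ball G X' B r := by
  induction r with
  | zero => exact hA
  | succ r ih =>
    rintro u (hu | ⟨hu, v, hv, e⟩)
    · exact Or.inl (ih hu)
    · exact Or.inr ⟨hX hu, v, ih hv, e⟩

lemma ball_subset (hA : A ⊆ X) (r : ℕ) : ball G X A r ⊆ X := by
  induction r with
  | zero => exact hA
  | succ r ih =>
    rintro u (hu | hu)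
    · exact ih hu
    · exact hu.1

lemma ball_ball (r s : ℕ) : ball G X (ball G X A r) s = ball G X A (r + s) := by
  induction s with
  | zero => rfl
  | succ s ih => rw [← add_assoc, ball, ball, ih]

lemma reach_of_mem_ball {r : ℕ} (h : b ∈ ball G X A r) :
    ∃ a ∈ A, Reach G.Adj (ball G X A r) a b := by
  induction r generalizing b with
  | zero => exact ⟨b, h, Reach.refl h⟩
  | succ r ih =>
    rcases h with h | ⟨hb, v, hv, e⟩
    · obtain ⟨a, ha, h'⟩ := ih h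
      exact ⟨a, ha, h'.mono subset_union_left⟩
    · obtain ⟨a, ha, h'⟩ := ih hv
      exact ⟨a, ha, (h'.mono subset_union_left).tail e (Or.inr ⟨hb, v, hv, e⟩)⟩

lemma conn_ball (a : V) (r : ℕ) : Conn G (ball G X {a} r) :=
  conn_of_root (subset_ball r rfl) fun _ hb => by
    obtain ⟨_, rfl, h⟩ := reach_of_mem_ball hb
    exact h

lemma mem_ball_of_reach (ha : a ∈ A) (h : Reach G.Adj X a b) : ∃ r, b ∈ ball G X A r :=
  h.ind (P := fun x => ∃ r, x ∈ ball G X A r) ⟨0, ha⟩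
    fun _ _ _ ⟨r, hr⟩ e hy => ⟨r + 1, ball_succ_of_adj hr e hy⟩

lemma mem_ball_symm {r : ℕ} (ha : a ∈ X) (h : b ∈ ball G X {a} r) : a ∈ ball G X {b} r := by
  induction r generalizing b with
  | zero => exact (show b = a from h).symm
  | succ r ih =>
    rcases h with h | ⟨hb, v, hv, e⟩
    · exact Or.inl (ih h)
    · have h1 : v ∈ ball G X {b} 1 :=
        ball_succ_of_adj (r := 0) rfl e.symm (ball_subset (singleton_subset_iff.2 ha) r hv)
      have h2 := ball_mono subset_rfl (singleton_subset_iff.2 h1) r (ih hv)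
      rwa [ball_ball, add_comm] at h2

lemma ncard_ball_le [Finite V] {D : ℕ} (hD : DegLe G X D) (hA : A ⊆ X) (r : ℕ) :
    (ball G X A r).ncard ≤ A.ncard * (D + 1) ^ r := by
  classical
  induction r with
  | zero => simp [ball]
  | succ r ih =>
    have h1 : {u | u ∈ X ∧ ∃ v ∈ ball G X A r, G.Adj v u} =
        ⋃ v ∈ (toFinite (ball G X A r)).toFinset, nbr G X v := by
      ext u; simp [nbr]
    have h2 : (⋃ v ∈ (toFinite (ball G X A r)).toFinset, nbr G X v).ncard ≤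
        (ball G X A r).ncard * D := by
      refine (Finset.set_ncard_biUnion_le _ _).trans ?_
      rw [ncard_eq_toFinset_card _ (toFinite _), ← smul_eq_mul]
      exact Finset.sum_le_card_nsmul _ _ _ fun v hv => hD v (ball_subset hA r (by simpa using hv))
    calc (ball G X A (r + 1)).ncard ≤ (ball G X A r).ncard + (ball G X A r).ncard * D := by
          rw [ball, h1]
          exact (ncard_union_le _ _).trans (Nat.add_le_add_left h2 _)
      _ = (ball G X A r).ncard * (D + 1) := by ring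
      _ ≤ A.ncard * (D + 1) ^ r * (D + 1) := Nat.mul_le_mul_right _ ih
      _ = _ := by ring

lemma Pth.mem_ball (P : Pth G) (hP : P.set ⊆ X) (h0 : P.p 0 ∈ A) {i : ℕ} (hi : i ≤ P.m) :
    P.p i ∈ ball G X A i := by
  induction i with
  | zero => exact h0
  | succ i ih => exact ball_succ_of_adj (ih (by omega)) (P.adj i hi) (hP (P.p_mem_set hi))

/-- a vertex that is reachable but outside the ball of radius `r` gives a long path -/
lemma exists_long_pth {r : ℕ} (h : Reach G.Adj X a b) (hb : b ∉ ball G X {a} r) :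
    ∃ P : Pth G, P.p 0 = a ∧ P.set ⊆ X ∧ r < P.m := by
  obtain ⟨P, h1, h2, h3⟩ := exists_pth h
  refine ⟨P, h1, h3, lt_of_not_ge fun hm => hb ?_⟩
  exact ball_mono_r hm (h2 ▸ P.mem_ball h3 h1 le_rfl)

/-- breadth first search from `A` inside `X` -/
lemma exists_bfs (hA : A ⊆ X) (h : ∀ u ∈ X, ∃ a ∈ A, Reach G.Adj X a u) :
    ∃ lvl : V → ℕ, (∀ u ∈ X, lvl u = 0 ↔ u ∈ A) ∧
      (∀ u ∈ X, ∀ v ∈ X, G.Adj u v → lvl v ≤ lvl u + 1) ∧
      ∀ u ∈ X, ∃ P ⊆ X, u ∈ P ∧ InjOn lvl P ∧ ∃ a ∈ A, a ∈ P ∧ ∀ x ∈ P, Reach G.Adj P a x := by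
  classical
  have hex : ∀ u ∈ X, ∃ r, u ∈ ball G X A r := fun u hu =>
    let ⟨_, ha, h'⟩ := h u hu; mem_ball_of_reach ha h'
  let lvl : V → ℕ := fun u => if h : ∃ r, u ∈ ball G X A r then Nat.find h else 0
  have h1 : ∀ u ∈ X, u ∈ ball G X A (lvl u) := fun u hu => by
    simp only [lvl, dif_pos (hex u hu)]; exact Nat.find_spec (hex u hu)
  have h2 : ∀ u r, u ∈ ball G X A r → lvl u ≤ r := fun u r hr => by
    simp only [lvl, dif_pos (⟨r, hr⟩ : ∃ r, u ∈ ball G X A r)]; exact Nat.find_min' _ hr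
  refine ⟨lvl, fun u hu => ⟨fun e => ?_, fun e => Nat.le_zero.1 (h2 u 0 e)⟩,
    fun u hu v hv e => h2 _ _ (ball_succ_of_adj (h1 u hu) e hv), ?_⟩
  · have := h1 u hu
    rwa [e] at this
  · have key : ∀ r, ∀ u ∈ X, lvl u = r → ∃ P ⊆ X, u ∈ P ∧ InjOn lvl P ∧ (∀ x ∈ P, lvl x ≤ r) ∧
        ∃ a ∈ A, a ∈ P ∧ ∀ x ∈ P, Reach G.Adj P a x := by
      intro r
      induction r with
      | zero =>
        intro u hu e
        have := h1 u hu
        rw [e] at this
        exact ⟨{u}, singleton_subset_iff.2 hu, rfl, injOn_singleton _ _, fun x hx => hx ▸ e.le,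
          u, this, rfl, fun x hx => hx ▸ Reach.refl rfl⟩
      | succ r ih =>
        intro u hu e
        have h3 := h1 u hu
        rw [e] at h3
        rcases h3 with h3 | ⟨-, v, hv, e'⟩
        · have := h2 _ _ h3; omega
        · have hvX : v ∈ X := ball_subset hA r hv
          have h4 := h2 _ _ hv
          have h5 := h2 _ _ (ball_succ_of_adj (h1 v hvX) e' hu)
          obtain ⟨P, hP, hvP, hinj, hle, a, ha, haP, hr⟩ := ih v hvX (by omega)
          have huP : u ∉ P := fun hx => by have := hle u hx; omega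
          refine ⟨insert u P, insert_subset hu hP, mem_insert _ _, ?_, ?_, a, ha, Or.inr haP, ?_⟩
          · rw [injOn_insert huP]
            refine ⟨hinj, ?_⟩
            rintro ⟨x, hx, e2⟩
            have := hle x hx
            omega
          · rintro x (rfl | hx)
            · exact e.le
            · exact (hle x hx).trans (Nat.le_succ _)
          · rintro x (rfl | hx)
            · exact ((hr v hvP).mono (subset_insert _ _)).tail e' (mem_insert _ _)
            · exact (hr x hx).mono (subset_insert _ _)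
    intro u hu
    obtain ⟨P, h3, h4, h5, -, h6⟩ := key _ u hu rfl
    exact ⟨P, h3, h4, h5, h6⟩

end ball

end Pool.Agent.Work.MP_7f4e13_co
end

-- merged part: Pool.Agent.Work.MP_7f4e13_co.Seg
section
/-! Large brambles give a mesh or a net of paths. -/

namespace Pool.Agent.Work.MP_7f4e13_co

open Pool.Agent.Work.MP_97603a_co Set

lemma exists_inj_fin {α : Type*} {A : Finset α} {s : ℕ} (h : s ≤ A.card) :
    ∃ f : Fin s → α, Function.Injective f ∧ ∀ i, f i ∈ A :=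
  ⟨fun i => A.equivFin.symm (Fin.castLE h i), fun _ _ e =>
    Fin.castLE_injective h (A.equivFin.symm.injective (Subtype.ext e)), fun _ => Subtype.prop _⟩

namespace SegAux

variable {V : Type} {G : SimpleGraph V} {X : Set V}

lemma exists_append (P Q : Pth G) (e : P.p P.m = Q.p 0)
    (h : ∀ v ∈ P.set, v ∈ Q.set → v = Q.p 0) :
    ∃ R : Pth G, R.set ⊆ P.set ∪ Q.set ∧ P.set ⊆ R.set ∧ R.p R.m = Q.p Q.m := by
  have key : ∀ i ≤ P.m, ∀ j, P.m < j → j ≤ P.m + Q.m → P.p i ≠ Q.p (j - P.m) := by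
    intro i hi j hj hj' e'
    have h1 := h _ (P.p_mem_set hi) (e' ▸ Q.p_mem_set (by omega))
    have h2 := Q.inj (j - P.m) (by omega) 0 (by omega) (e'.symm.trans h1)
    omega
  refine ⟨⟨fun i => if i ≤ P.m then P.p i else Q.p (i - P.m), P.m + Q.m, ?_, ?_⟩, ?_, ?_, ?_⟩
  · intro i hi
    by_cases h1 : i + 1 ≤ P.m
    · simp only [h1, show i ≤ P.m by omega, if_true]
      exact P.adj i (by omega)
    · by_cases h2 : i ≤ P.m
      · have : i = P.m := by omega
        simp only [h1, h2, if_true, if_false]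
        rw [this, e, show P.m + 1 - P.m = 0 + 1 by omega]
        exact Q.adj 0 (by omega)
      · simp only [h1, h2, if_false]
        rw [show i + 1 - P.m = i - P.m + 1 by omega]
        exact Q.adj _ (by omega)
  · intro i hi j hj e'
    by_cases h1 : i ≤ P.m <;> by_cases h2 : j ≤ P.m <;> simp only [h1, h2, if_true, if_false] at e'
    · exact P.inj i h1 j h2 e'
    · exact absurd e' (key i h1 j (by omega) hj)
    · exact absurd e'.symm (key j h2 i (by omega) hi)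
    · have := Q.inj _ (by omega) _ (by omega) e'
      omega
  · intro v hv
    obtain ⟨i, hi, rfl⟩ := Pth.mem_set.1 hv
    by_cases h1 : i ≤ P.m <;> simp only [h1, if_true, if_false]
    · exact Or.inl (P.p_mem_set h1)
    · exact Or.inr (Q.p_mem_set (by change i ≤ P.m + Q.m at hi; omega))
  · intro v hv
    obtain ⟨i, hi, rfl⟩ := Pth.mem_set.1 hv
    exact Pth.mem_set.2 ⟨i, by change i ≤ P.m + Q.m; omega, by simp [hi]⟩
  · by_cases h1 : P.m + Q.m ≤ P.m <;> simp only [h1, if_true, if_false]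
    · rw [show Q.m = 0 by omega, add_zero, e]
    · rw [Nat.add_sub_cancel_left]

lemma hit_path [Finite V] {t : ℕ} {𝓑 : Set (Set V)} (h : IsBr G X (t + 1) 𝓑) :
    ∃ P : Pth G, P.set ⊆ X ∧ ∀ B ∈ 𝓑, (B ∩ P.set).Nonempty := by
  have key : ∀ k, ∀ P : Pth G, P.set ⊆ X → ∀ B0 ∈ 𝓑, P.p P.m ∈ B0 →
      (∀ v ∈ B0, v ∈ P.set → v = P.p P.m) → {B | B ∈ 𝓑 ∧ Disjoint B P.set}.ncard ≤ k →
      ∃ P : Pth G, P.set ⊆ X ∧ ∀ B ∈ 𝓑, (B ∩ P.set).Nonempty := by
    intro k
    induction k with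
    | zero =>
      intro P hP B0 _ _ _ hk
      rw [Nat.le_zero, ncard_eq_zero] at hk
      refine ⟨P, hP, fun B hB => not_disjoint_iff_nonempty_inter.1 fun hd => ?_⟩
      exact (hk.subset ⟨hB, hd⟩ : B ∈ (∅ : Set (Set V)))
    | succ k ih =>
      intro P hP B0 hB0 he huniq hk
      by_cases hall : ∀ B ∈ 𝓑, (B ∩ P.set).Nonempty
      · exact ⟨P, hP, hall⟩
      push Not at hall
      obtain ⟨B', hB', hd⟩ := hall
      rw [← disjoint_iff_inter_eq_empty] at hd
      let U : Set V := {v | ∃ B ∈ 𝓑, Disjoint B P.set ∧ v ∈ B}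
      obtain ⟨b, hb⟩ := (h.conn B' hB').1
      have hr := ((h.conn B0 hB0).union (h.conn B' hB') (h.touch B0 hB0 B' hB')).2 _ (Or.inl he)
        b (Or.inr hb)
      have heP := P.p_mem_set (le_refl P.m)
      rcases hr.first_hit U with h1 | ⟨c, ⟨B1, hB1, hd1, hc⟩, -, rfl | ⟨c', h1, e⟩⟩
      · exact absurd ⟨B', hB', hd, hb⟩ h1.right_mem.2
      · exact absurd heP (Set.disjoint_left.1 hd1 hc)
      obtain ⟨Q, hQ0, hQm, hQ⟩ :=
        exists_pth ((h1.mono (subset_insert c _)).tail e (mem_insert _ _))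
      have hQ' : ∀ v ∈ Q.set, v = c ∨ (v ∈ B0 ∧ v ∉ U) := by
        intro v hv
        rcases hQ hv with h2 | ⟨h2 | h2, h3⟩
        · exact Or.inl h2
        · exact Or.inr ⟨h2, h3⟩
        · exact absurd ⟨B', hB', hd, h2⟩ h3
      obtain ⟨R, hR1, hR2, hR3⟩ := exists_append P Q hQ0.symm fun v hv hv' => by
        rcases hQ' v hv' with rfl | h2
        · exact absurd hv (Set.disjoint_left.1 hd1 hc)
        · rw [hQ0]; exact huniq v h2.1 hv
      refine ih R (fun v hv => ?_) B1 hB1 (by rwa [hR3, hQm]) (fun v hv hv' => ?_) ?_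
      · rcases hR1 hv with h2 | h2
        · exact hP h2
        · rcases hQ' v h2 with rfl | h3
          · exact h.sub B1 hB1 hc
          · exact h.sub B0 hB0 h3.1
      · rw [hR3, hQm]
        rcases hR1 hv' with h2 | h2
        · exact absurd h2 (Set.disjoint_left.1 hd1 hv)
        · exact (hQ' v h2).resolve_right fun h3 => h3.2 ⟨B1, hB1, hd1, hv⟩
      · have : {B | B ∈ 𝓑 ∧ Disjoint B R.set}.ncard < {B | B ∈ 𝓑 ∧ Disjoint B P.set}.ncard := by
          refine ncard_lt_ncard ⟨fun B hB => ⟨hB.1, hB.2.mono_right hR2⟩, fun h2 => ?_⟩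
          have h3 := (h2 ⟨hB1, hd1⟩).2
          exact Set.disjoint_left.1 h3 hc (by rw [← hQm, ← hR3]; exact R.p_mem_set le_rfl)
        omega
  obtain ⟨B0, hB0, -⟩ := h.ord ∅ (by simp)
  obtain ⟨a, ha⟩ := (h.conn B0 hB0).1
  let P : Pth G := ⟨fun _ => a, 0, by simp, by simp⟩
  have hP : ∀ v ∈ P.set, v = a := fun v hv => by
    obtain ⟨i, -, rfl⟩ := Pth.mem_set.1 hv
    rfl
  exact key _ P (fun v hv => hP v hv ▸ h.sub B0 hB0 ha) B0 hB0 ha (fun v _ hv => hP v hv) le_rfl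

def Strong (𝓑 : Set (Set V)) (M : ℕ) (S : Set V) : Prop :=
  ∀ Z : Finset V, Z.card < M → ∃ B ∈ 𝓑, (∀ z ∈ Z, z ∉ B) ∧ (B ∩ S).Nonempty

lemma one_strong [Finite V] {t M : ℕ} {𝓑 : Set (Set V)} (h : IsBr G X (t + M + 1) 𝓑) :
    ∃ P : Pth G, P.set ⊆ X ∧ Strong 𝓑 M P.set ∧
      IsBr G (X \ P.set) t {B | B ∈ 𝓑 ∧ Disjoint B P.set} := by
  classical
  obtain ⟨P0, hP0, hit⟩ := hit_path h
  have hex : ∃ m, Strong 𝓑 M (P0.seg 0 m) := ⟨P0.m, fun Z hZ =>
    let ⟨B, hB, h'⟩ := h.ord Z (by omega); ⟨B, hB, h', hit B hB⟩⟩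
  have hm : Nat.find hex ≤ P0.m := Nat.find_min' hex fun Z hZ =>
    let ⟨B, hB, h'⟩ := h.ord Z (by omega); ⟨B, hB, h', hit B hB⟩
  have hset := P0.sub_set (Nat.zero_le _) hm
  have hZ0 : ∃ Z0 : Finset V, Z0.card ≤ M + 1 ∧
      ∀ B ∈ 𝓑, (∀ z ∈ Z0, z ∉ B) → Disjoint B (P0.seg 0 (Nat.find hex)) := by
    rcases Nat.eq_zero_or_pos (Nat.find hex) with e | e
    · refine ⟨{P0.p 0}, by simp, fun B _ h' => Set.disjoint_left.2 ?_⟩
      rintro _ hv ⟨i, -, hi, rfl⟩
      rw [show i = 0 by omega] at hv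
      exact h' _ (by simp) hv
    · have h1 := Nat.find_min hex (m := Nat.find hex - 1) (by omega)
      simp only [Strong, not_forall, not_exists, not_and] at h1
      obtain ⟨Z, hZ, h1⟩ := h1
      refine ⟨insert (P0.p (Nat.find hex)) Z, (Finset.card_insert_le _ _).trans (by omega),
        fun B hB h' => Set.disjoint_left.2 ?_⟩
      rintro _ hv ⟨i, -, hi, rfl⟩
      rcases hi.eq_or_lt with e' | e'
      · exact h' _ (by simp [e']) hv
      · exact h1 B hB (fun z hz => h' z (Finset.mem_insert_of_mem hz))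
          ⟨_, hv, P0.p_mem_seg (Nat.zero_le _) (Nat.le_sub_one_of_lt e')⟩
  obtain ⟨Z0, hZ0, hZ0'⟩ := hZ0
  refine ⟨P0.sub 0 _ hm, ?_, ?_, ?_⟩ <;> rw [hset]
  · exact (P0.seg_subset 0 hm).trans hP0
  · exact Nat.find_spec hex
  · refine ⟨fun B hB => subset_diff.2 ⟨h.sub B hB.1, hB.2⟩, fun B hB => h.conn B hB.1,
      fun B hB B' hB' => h.touch B hB.1 B' hB'.1, fun Z hZ => ?_⟩
    obtain ⟨B, hB, h'⟩ := h.ord (Z ∪ Z0) ((Finset.card_union_le _ _).trans_lt (by omega))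
    exact ⟨B, ⟨hB, hZ0' B hB fun z hz => h' z (Finset.mem_union_right _ hz)⟩,
      fun z hz => h' z (Finset.mem_union_left _ hz)⟩

lemma strong_paths [Finite V] (M l : ℕ) : ∀ (X : Set V) (𝓑 : Set (Set V)),
    IsBr G X (l * (M + 1)) 𝓑 → ∃ P : Fin l → Pth G, (∀ i, (P i).set ⊆ X ∧ Strong 𝓑 M (P i).set) ∧
      ∀ i j, i ≠ j → Disjoint (P i).set (P j).set := by
  induction l with
  | zero => exact fun _ _ _ => ⟨Fin.elim0, fun i => i.elim0, fun i => i.elim0⟩
  | succ l ih =>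
    intro X 𝓑 h
    obtain ⟨P0, h1, h2, h3⟩ := one_strong (t := l * (M + 1)) (M := M)
      (h.mono subset_rfl (by rw [Nat.succ_mul]; omega))
    obtain ⟨P, h4, h5⟩ := ih _ _ h3
    refine ⟨Fin.cons P0 P, fun i => ?_, fun i j => ?_⟩
    · refine Fin.cases ⟨h1, h2⟩ (fun i => ⟨(h4 i).1.trans diff_subset, fun Z hZ => ?_⟩) i
      obtain ⟨B, hB, h'⟩ := (h4 i).2 Z hZ
      exact ⟨B, hB.1, h'⟩
    · refine Fin.cases ?_ (fun i => ?_) i <;> refine Fin.cases ?_ (fun j => ?_) j <;> intro e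
      · exact absurd rfl e
      · exact (subset_diff.1 (h4 j).1).2.symm
      · exact (subset_diff.1 (h4 i).1).2
      · exact h5 i j fun e' => e (congrArg _ e')

lemma linked [Finite V] {t M : ℕ} {𝓑 : Set (Set V)} (h : IsBr G X t 𝓑) {S S' : Set V}
    (hS : Strong 𝓑 M S) (hS' : Strong 𝓑 M S') : ∃ Q : Fin M → Pth G,
      (∀ i, ((Q i).set ∩ S).Nonempty ∧ ((Q i).set ∩ S').Nonempty) ∧
      ∀ i j, i ≠ j → Disjoint (Q i).set (Q j).set := by
  obtain ⟨s, t, P, h1, h2⟩ := menger M G.Adj S S' fun Z hZ => by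
    obtain ⟨B, hB, hZB, x, hx, hx'⟩ := hS Z hZ
    obtain ⟨B', hB', hZB', y, hy, hy'⟩ := hS' Z hZ
    refine ⟨x, hx', y, hy', (((h.conn B hB).union (h.conn B' hB') (h.touch B hB B' hB')).2 x
      (Or.inl hx) y (Or.inr hy)).mono ?_⟩
    rintro z (hz | hz) hz'
    · exact hZB z hz' hz
    · exact hZB' z hz' hz
  choose Q hQ0 hQm hQ using fun i => exists_pth (h1 i).2.2
  exact ⟨Q, fun i => ⟨⟨_, (Q i).p_mem_set (Nat.zero_le _), hQ0 i ▸ (h1 i).1⟩,
    ⟨_, (Q i).p_mem_set le_rfl, hQm i ▸ (h1 i).2.1⟩⟩, fun i j e => (h2 i j e).mono (hQ i) (hQ j)⟩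

lemma bip_ramsey (s N : ℕ) : ∃ M, N ≤ M ∧ ∀ (α : Type) (r : α → α → Prop) (A B : Finset α),
    M ≤ A.card → M ≤ B.card →
    (∃ A' ⊆ A, ∃ B' ⊆ B, s ≤ A'.card ∧ s ≤ B'.card ∧ ∀ a ∈ A', ∀ b ∈ B', r a b) ∨
    (∃ A' ⊆ A, ∃ B' ⊆ B, N ≤ A'.card ∧ N ≤ B'.card ∧ ∀ a ∈ A', ∀ b ∈ B', ¬ r a b) := by
  classical
  refine ⟨2 ^ (s + N) * (s + N) + (s + N) + 1, by omega, fun α r A B hA hB => ?_⟩
  obtain ⟨A0, hA0, hc⟩ := Finset.exists_subset_card_eq (show s + N ≤ A.card by omega)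
  obtain ⟨T, hT, hf⟩ := Finset.exists_lt_card_fiber_of_mul_lt_card_of_maps_to (s := B)
    (t := A0.powerset) (f := fun b => A0.filter fun a => r a b) (n := s + N)
    (fun b _ => Finset.mem_powerset.2 (Finset.filter_subset _ _))
    (by rw [Finset.card_powerset, hc]; omega)
  have hT' := Finset.mem_powerset.1 hT
  by_cases h1 : s ≤ T.card
  · refine Or.inl ⟨T, hT'.trans hA0, _, Finset.filter_subset _ _, h1, le_trans (by omega) hf.le,
      fun a ha b hb => ?_⟩
    rw [← (Finset.mem_filter.1 hb).2] at ha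
    exact (Finset.mem_filter.1 ha).2
  · refine Or.inr ⟨A0 \ T, Finset.sdiff_subset.trans hA0, _, Finset.filter_subset _ _, ?_,
      le_trans (by omega) hf.le, fun a ha b hb hr => ?_⟩
    · rw [Finset.card_sdiff_of_subset hT']; omega
    · rw [← (Finset.mem_filter.1 hb).2, Finset.mem_sdiff] at ha
      exact ha.2 (Finset.mem_filter.2 ⟨ha.1, hr⟩)

lemma multi_ramsey {ι : Type} (s N : ℕ) (E : Finset (ι × ι)) : ∃ M, ∀ (α : Type)
    (r : α → α → Prop) (S : ι → Finset α), (∀ e, M ≤ (S e).card) →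
    (∃ e e', ∃ A ⊆ S e, ∃ B ⊆ S e', s ≤ A.card ∧ s ≤ B.card ∧ ∀ a ∈ A, ∀ b ∈ B, r a b) ∨
    ∃ S' : ι → Finset α, (∀ e, S' e ⊆ S e ∧ N ≤ (S' e).card) ∧
      ∀ p ∈ E, p.1 ≠ p.2 → ∀ a ∈ S' p.1, ∀ b ∈ S' p.2, ¬ r a b := by
  classical
  induction E using Finset.induction_on with
  | empty => exact ⟨N, fun α r S hS => Or.inr ⟨S, fun e => ⟨subset_rfl, hS e⟩, by simp⟩⟩
  | insert p E _ ih =>
    obtain ⟨M1, h1⟩ := ih
    obtain ⟨M, hM, h2⟩ := bip_ramsey s M1
    refine ⟨M, fun α r S hS => ?_⟩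
    rcases h2 α r _ _ (hS p.1) (hS p.2) with h3 | ⟨A, hA, B, hB, hA', hB', h3⟩
    · exact Or.inl ⟨_, _, h3⟩
    let S1 : ι → Finset α := fun e => if e = p.1 then A else if e = p.2 then B else S e
    have hS1 : ∀ e, S1 e ⊆ S e ∧ M1 ≤ (S1 e).card := by
      intro e
      simp only [S1]
      split_ifs with e1 e2
      · exact ⟨e1 ▸ hA, hA'⟩
      · exact ⟨e2 ▸ hB, hB'⟩
      · exact ⟨subset_rfl, hM.trans (hS e)⟩
    rcases h1 α r S1 (fun e => (hS1 e).2) with ⟨e, e', A', h4, B', h5, h6⟩ | ⟨S', h4, h5⟩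
    · exact Or.inl ⟨e, e', A', h4.trans (hS1 e).1, B', h5.trans (hS1 e').1, h6⟩
    refine Or.inr ⟨S', fun e => ⟨(h4 e).1.trans (hS1 e).1, (h4 e).2⟩, fun p' hp' hne => ?_⟩
    rcases Finset.mem_insert.1 hp' with rfl | hp'
    · intro a ha b hb
      have ha' := (h4 _).1 ha
      have hb' := (h4 _).1 hb
      simp only [S1, if_true, if_neg hne.symm] at ha' hb'
      exact h3 a ha' b hb'
    · exact h5 p' hp' hne

/-- the union of a family of paths -/
def pg {ι : Type} (A : ι → Pth G) : SimpleGraph V where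
  Adj u v := G.Adj u v ∧ ∃ i, ∃ k < (A i).m,
    (u = (A i).p k ∧ v = (A i).p (k + 1)) ∨ (v = (A i).p k ∧ u = (A i).p (k + 1))
  symm := ⟨fun _ _ ⟨h, i, k, hk, h'⟩ => ⟨h.symm, i, k, hk, h'.symm⟩⟩
  loopless := ⟨fun _ h => G.irrefl h.1⟩

lemma conn_pg {ι : Type} (A : ι → Pth G) (i : ι) : Conn (pg A) (A i).set :=
  Pth.conn_set (G := pg A) ⟨(A i).p, (A i).m,
    fun k hk => ⟨(A i).adj k hk, i, k, hk, Or.inl ⟨rfl, rfl⟩⟩, (A i).inj⟩

lemma deg_pg {ι : Type} (A : ι → Pth G) (h : ∀ i j, i ≠ j → Disjoint (A i).set (A j).set)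
    (v : V) : (nbr (pg A) univ v).ncard ≤ 2 := by
  by_cases hv : ∃ i, v ∈ (A i).set
  · obtain ⟨i, hi⟩ := hv
    obtain ⟨k, hk, rfl⟩ := Pth.mem_set.1 hi
    refine (ncard_le_ncard (t := {(A i).p (k + 1), (A i).p (k - 1)}) ?_).trans
      ((ncard_insert_le _ _).trans (by simp))
    rintro u ⟨-, -, j, k', hk', ⟨e, rfl⟩ | ⟨rfl, e⟩⟩
    · obtain rfl : i = j := by
        by_contra hij
        exact Set.disjoint_left.1 (h i j hij) hi (e ▸ (A j).p_mem_set hk'.le)
      rw [(A i).inj k hk k' hk'.le e]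
      exact Or.inl rfl
    · obtain rfl : i = j := by
        by_contra hij
        exact Set.disjoint_left.1 (h i j hij) hi (e ▸ (A j).p_mem_set hk')
      rw [(A i).inj k hk (k' + 1) hk' e]
      exact Or.inr rfl
  · have : nbr (pg A) univ v = ∅ := by
      rw [eq_empty_iff_forall_notMem]
      rintro u ⟨-, -, j, k', hk', ⟨e, -⟩ | ⟨-, e⟩⟩
      · exact hv ⟨j, e ▸ (A j).p_mem_set hk'.le⟩
      · exact hv ⟨j, e ▸ (A j).p_mem_set hk'⟩
    simp [this]

lemma two_families [Finite V] {ι κ : Type} (A : ι → Pth G) (B : κ → Pth G)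
    (hA : ∀ i j, i ≠ j → Disjoint (A i).set (A j).set)
    (hB : ∀ i j, i ≠ j → Disjoint (B i).set (B j).set) :
    ∃ W ≤ G, DegLe W univ 4 ∧ (∀ i, Conn W (A i).set) ∧ ∀ j, Conn W (B j).set := by
  refine ⟨pg A ⊔ pg B, sup_le (fun _ _ h => h.1) (fun _ _ h => h.1), fun v _ => ?_,
    fun i => (conn_pg A i).mono_graph fun _ _ _ _ h => Or.inl h,
    fun i => (conn_pg B i).mono_graph fun _ _ _ _ h => Or.inr h⟩
  have h1 := deg_pg A hA v
  have h2 := deg_pg B hB v
  have h3 : nbr (pg A ⊔ pg B) univ v = nbr (pg A) univ v ∪ nbr (pg B) univ v := by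
    ext u; simp [nbr]
  rw [h3]
  exact (ncard_union_le _ _).trans (by omega)

/-- if every point lies in at most `c` of `l` sets then a small set misses one of them -/
lemma exists_miss {l c : ℕ} (D : Fin l → Set V) (h : ∀ v, {i | v ∈ D i}.ncard ≤ c)
    (Z : Finset V) (hZ : Z.card * c < l) : ∃ i, ∀ z ∈ Z, z ∉ D i := by
  classical
  by_contra hc
  push Not at hc
  have h1 : (Finset.univ : Finset (Fin l)) ⊆ Z.biUnion fun z => (toFinite {i | z ∈ D i}).toFinset :=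
    fun i _ => let ⟨z, hz, h'⟩ := hc i; Finset.mem_biUnion.2 ⟨z, hz, by simpa using h'⟩
  have h2 := (Finset.card_le_card h1).trans (Finset.card_biUnion_le.trans
    (Finset.sum_le_card_nsmul _ _ c fun z _ => by rw [← ncard_eq_toFinset_card]; exact h z))
  simp at h2
  omega

lemma ncard_le_one_of_disj {ι : Type} {D : ι → Set V} (h : ∀ i j, i ≠ j → Disjoint (D i) (D j))
    (v : V) : {i | v ∈ D i}.Subsingleton := fun i hi j hj => by
  by_contra e
  exact Set.disjoint_left.1 (h i j e) hi hj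

end SegAux

open SegAux

theorem mesh_or_net (s l N : ℕ) : ∃ g : ℕ, ∀ (V : Type) [Finite V] (G : SimpleGraph V),
    Br G univ g → Mesh G s ∨ Net G l N := by
  classical
  obtain ⟨M, hM⟩ := multi_ramsey s N (Finset.univ : Finset ((Fin l × Fin l) × (Fin l × Fin l)))
  refine ⟨l * (M + 1), fun V _ G ⟨𝓑, h⟩ => ?_⟩
  obtain ⟨P, hP, hPd⟩ := strong_paths M l _ _ h
  choose Q hQ hQd using fun e : Fin l × Fin l => linked h (hP e.1).2 (hP e.2).2
  have hinj : ∀ e, Function.Injective (Q e) := fun e i j e' => by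
    by_contra hij
    have := hQd e i j hij
    rw [e', disjoint_self] at this
    exact (Q e j).conn_set.1.ne_empty this
  have hd : ∀ e, ∀ a ∈ Finset.univ.image (Q e), ∀ b ∈ Finset.univ.image (Q e), a ≠ b →
      Disjoint a.set b.set := by
    intro e a ha b hb hab
    obtain ⟨i, -, rfl⟩ := Finset.mem_image.1 ha
    obtain ⟨j, -, rfl⟩ := Finset.mem_image.1 hb
    exact hQd e i j fun e' => hab (e' ▸ rfl)
  rcases hM (Pth G) (fun a b => (a.set ∩ b.set).Nonempty) (fun e => Finset.univ.image (Q e))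
    (fun e => by rw [Finset.card_image_of_injective _ (hinj e)]; simp) with
    ⟨e, e', A, hA, B, hB, hA', hB', h1⟩ | ⟨S, h1, h2⟩
  · obtain ⟨f, hf, hf'⟩ := exists_inj_fin hA'
    obtain ⟨g, hg, hg'⟩ := exists_inj_fin hB'
    exact Or.inl ⟨f, g, fun i j hij => hd e _ (hA (hf' i)) _ (hA (hf' j)) (hf.ne hij),
      fun i j hij => hd e' _ (hB (hg' i)) _ (hB (hg' j)) (hg.ne hij),
      fun i j => h1 _ (hf' i) _ (hg' j)⟩
  · choose f hf hf' using fun e => exists_inj_fin (h1 e).2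
    refine Or.inr ⟨P, fun e => f e.1 e.2, hPd, ?_, fun e => ?_⟩
    · rintro ⟨e, i⟩ ⟨e', j⟩ hne
      by_cases he : e = e'
      · subst he
        exact hd e _ ((h1 e).1 (hf' e i)) _ ((h1 e).1 (hf' e j))
          ((hf e).ne fun h' => hne (by rw [h']))
      · have := h2 (e, e') (Finset.mem_univ _) he _ (hf' e i) _ (hf' e' j)
        rwa [← not_disjoint_iff_nonempty_inter, not_not] at this
    · obtain ⟨i, -, e'⟩ := Finset.mem_image.1 ((h1 e.1).1 (hf' e.1 e.2))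
      have := hQ e.1 i
      rwa [e'] at this

/-- Reed-Wood sparsification -/
theorem sparsify (t : ℕ) : ∃ g : ℕ, ∀ (V : Type) [Finite V] (G : SimpleGraph V),
    Br G univ g → ∃ W ≤ G, DegLe W univ 4 ∧ Br W univ t := by
  obtain ⟨g, hg⟩ := mesh_or_net t (3 * t) 1
  refine ⟨g, fun V _ G h => ?_⟩
  rcases hg V G h with ⟨A, B, hA, hB, hAB⟩ | ⟨P, Q, hP, hQ, hPQ⟩
  · obtain ⟨W, hW, hd, h1, h2⟩ := two_families A B hA hB
    refine ⟨W, hW, hd, range fun e : Fin t × Fin t => (A e.1).set ∪ (B e.2).set,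
      fun _ _ => subset_univ _, ?_, ?_, fun Z hZ => ?_⟩
    · rintro _ ⟨e, rfl⟩
      exact (h1 _).union (h2 _) (Or.inl (hAB _ _))
    · rintro _ ⟨e, rfl⟩ _ ⟨e', rfl⟩
      exact Or.inl ((hAB e.1 e'.2).mono (inter_subset_inter subset_union_left subset_union_right))
    · obtain ⟨i, hi⟩ := exists_miss (c := 1) (fun i => (A i).set)
        (fun v => (ncard_le_one_iff_subsingleton).2 (ncard_le_one_of_disj hA v)) Z (by omega)
      obtain ⟨j, hj⟩ := exists_miss (c := 1) (fun i => (B i).set)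
        (fun v => (ncard_le_one_iff_subsingleton).2 (ncard_le_one_of_disj hB v)) Z (by omega)
      exact ⟨_, ⟨(i, j), rfl⟩, fun z hz h' => h'.elim (hi z hz) (hj z hz)⟩
  · obtain ⟨W, hW, hd, h1, h2⟩ := two_families P Q hP hQ
    let D : Fin (3 * t) → Set V := fun i =>
      (P i).set ∪ ⋃ e : {e : (Fin (3 * t) × Fin (3 * t)) × Fin 1 // e.1.1 = i ∨ e.1.2 = i},
        (Q e.1).set
    refine ⟨W, hW, hd, range D, fun _ _ => subset_univ _, ?_, ?_, fun Z hZ => ?_⟩
    · rintro _ ⟨i, rfl⟩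
      refine (h1 i).union_iUnion (fun e => h2 _) fun e => Or.inl ?_
      rw [inter_comm]
      rcases e.2 with h' | h'
      · have := (hPQ e.1).1
        rwa [h'] at this
      · have := (hPQ e.1).2
        rwa [h'] at this
    · rintro _ ⟨i, rfl⟩ _ ⟨j, rfl⟩
      obtain ⟨x, hx⟩ := (h2 ((i, j), 0)).1
      exact Or.inl ⟨x, Or.inr (mem_iUnion.2 ⟨⟨((i, j), 0), Or.inl rfl⟩, hx⟩),
        Or.inr (mem_iUnion.2 ⟨⟨((i, j), 0), Or.inr rfl⟩, hx⟩)⟩
    · obtain ⟨i, hi⟩ := exists_miss (c := 3) D (fun v => by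
        have h3 := (ncard_le_one_iff_subsingleton).2 (ncard_le_one_of_disj hP v)
        have h4 := (ncard_le_one_iff_subsingleton).2 (ncard_le_one_of_disj hQ v)
        have h5 := ncard_image_le (f := fun e : (Fin (3 * t) × Fin (3 * t)) × Fin 1 => e.1.1)
          (toFinite {e | v ∈ (Q e).set})
        have h6 := ncard_image_le (f := fun e : (Fin (3 * t) × Fin (3 * t)) × Fin 1 => e.1.2)
          (toFinite {e | v ∈ (Q e).set})
        refine (ncard_le_ncard (t := {i | v ∈ (P i).set} ∪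
          ((fun e => e.1.1) '' {e | v ∈ (Q e).set} ∪ (fun e => e.1.2) '' {e | v ∈ (Q e).set}))
          ?_).trans ((ncard_union_le _ _).trans ((Nat.add_le_add_left (ncard_union_le _ _) _).trans
            (by omega)))
        rintro i (hi | hi)
        · exact Or.inl hi
        · obtain ⟨e, he⟩ := mem_iUnion.1 hi
          exact Or.inr (e.2.imp (fun h' => ⟨e.1, he, h'⟩) fun h' => ⟨e.1, he, h'⟩)) Z (by omega)
      exact ⟨_, ⟨i, rfl⟩, hi⟩

end Pool.Agent.Work.MP_7f4e13_co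
end

-- merged part: Pool.Agent.Work.MP_7f4e13_co.S.Basic
section
/-!
Working definitions and basic lemmas.
-/

namespace Pool.Agent.Work.MP_7f4e13_co.S

open Pool.Agent.Work.MP_97603a_co (Reach reach_seg)

variable {V : Type}

/-- No vertex has `d` pairwise non-adjacent neighbours. -/
def SF (G : SimpleGraph V) (d : ℕ) : Prop :=
  ∀ (v : V) (s : Finset V), (∀ x ∈ s, G.Adj v x) → (∀ x ∈ s, ∀ y ∈ s, ¬ G.Adj x y) → s.card < d

/-- `S` induces a connected (possibly empty) subgraph. -/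
def Conn (G : SimpleGraph V) (S : Set V) : Prop := ∀ x ∈ S, ∀ y ∈ S, Reach G.Adj S x y

/-- Closed neighbourhood. -/
def Nb (G : SimpleGraph V) (S : Set V) : Set V := {x | ∃ y ∈ S, x = y ∨ G.Adj x y}

/-- Disjoint and anticomplete. -/
def Far (G : SimpleGraph V) (S T : Set V) : Prop := ∀ x ∈ S, ∀ y ∈ T, x ≠ y ∧ ¬ G.Adj x y

/-- There is an edge between `S` and `T`. -/
def Touch (G : SimpleGraph V) (S T : Set V) : Prop := ∃ x ∈ S, ∃ y ∈ T, G.Adj x y

/-- Branch set model of an induced minor. -/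
def Model {W : Type} (G : SimpleGraph V) (H : SimpleGraph W) : Prop :=
  ∃ B : W → Set V, (∀ w, (B w).Nonempty ∧ Conn G (B w)) ∧
    ∀ w w', w ≠ w' → Disjoint (B w) (B w') ∧ (H.Adj w w' ↔ Touch G (B w) (B w'))

/-- The independence number of `G[X]` is at most `t`. -/
def AlLe (G : SimpleGraph V) (X : Set V) (t : ℕ) : Prop :=
  ∀ s : Finset V, (∀ x ∈ s, x ∈ X) → (∀ x ∈ s, ∀ y ∈ s, ¬ G.Adj x y) → s.card ≤ t

/-- `y 0, …, y n` is an induced path. -/
def IsIP (G : SimpleGraph V) (y : ℕ → V) (n : ℕ) : Prop :=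
  ∀ i ≤ n, ∀ j ≤ n, (G.Adj (y i) (y j) ↔ i + 1 = j ∨ j + 1 = i) ∧ (y i = y j → i = j)

/-- The vertices `y a, …, y b`. -/
def pts (y : ℕ → V) (a b : ℕ) : Set V := {x | ∃ i, a ≤ i ∧ i ≤ b ∧ y i = x}

/-- An induced path meeting `A` exactly in its first and `B` exactly in its last vertex. -/
def Link (G : SimpleGraph V) (A B : Set V) (y : ℕ → V) (n : ℕ) : Prop :=
  IsIP G y n ∧ ∀ i ≤ n, (y i ∈ A ↔ i = 0) ∧ (y i ∈ B ↔ i = n)

/-- A partition into stars (the fibres of `q`) such that cliques meet at most `w` parts. -/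
def StarPart (G : SimpleGraph V) (q : V → V) (w : ℕ) : Prop :=
  (∀ v, q v = v ∨ G.Adj v (q v)) ∧ (∀ v, q (q v) = q v) ∧
    ∀ K : Finset V, (∀ x ∈ K, ∀ y ∈ K, x ≠ y → G.Adj x y) → Set.InjOn q K → K.card ≤ w

/-- A haven for sets of independence number at most `w`. -/
def Haven (G : SimpleGraph V) (β : Set V → Set V) (w : ℕ) : Prop :=
  ∀ X, AlLe G X w → (β X).Nonempty ∧ Conn G (β X) ∧ Disjoint (β X) X ∧
    (∀ x ∈ β X, ∀ y, G.Adj x y → y ∉ X → y ∈ β X) ∧ ∀ X' ⊆ X, β X ⊆ β X'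

/-- `N[R]` meets all the big components for sets of independence number at most `t`. -/
def Strong (G : SimpleGraph V) (β : Set V → Set V) (R : Set V) (t : ℕ) : Prop :=
  ∀ X, AlLe G X t → ∃ x ∈ Nb G R, x ∈ β X

/-- A sequence of connected sets forming an induced path. -/
def Chain (G : SimpleGraph V) (c : ℤ → Set V) (lo hi : ℤ) : Prop :=
  (∀ p, lo ≤ p → p ≤ hi → (c p).Nonempty ∧ Conn G (c p)) ∧
    ∀ p q, lo ≤ p → p ≤ hi → lo ≤ q → q ≤ hi → p ≠ q →
      Disjoint (c p) (c q) ∧ (Touch G (c p) (c q) ↔ p + 1 = q ∨ q + 1 = p)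

/-- A chain with objects `Z i` outside it, touching at most `s` cells each, and anchors `b i` of
multiplicity at most `s`. -/
def Row {ι : Type} (G : SimpleGraph V) (Z : ι → Set V) (c : ℤ → Set V) (lo hi : ℤ) (b : ι → ℤ)
    (s : ℕ) : Prop :=
  Chain G c lo hi ∧ (∀ i, lo ≤ b i ∧ b i ≤ hi) ∧
    (∀ i p, lo ≤ p → p ≤ hi → Disjoint (Z i) (c p)) ∧
    (∀ i, ∃ T : Finset ℤ, T.card ≤ s ∧ ∀ p, lo ≤ p → p ≤ hi → Touch G (Z i) (c p) → p ∈ T) ∧
    ∀ (p : ℤ) (F : Finset ι), (∀ i ∈ F, b i = p) → F.card ≤ s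

/-- The objects `Z i` lie outside the path `y` and touch it, through at most four vertices. -/
def PathRow {ι : Type} (G : SimpleGraph V) (Z : ι → Set V) (y : ℕ → V) (n : ℕ) : Prop :=
  IsIP G y n ∧ ∀ i, Disjoint (Z i) (pts y 0 n) ∧ Touch G (Z i) (pts y 0 n) ∧
    ∃ S : Finset V, S.card ≤ 4 ∧ ∀ x ∈ Z i, ∀ p ≤ n, G.Adj x (y p) → x ∈ S

/-- The double ladder. -/
abbrev DL (k : ℕ) : SimpleGraph (Fin 3 × Fin k) :=
  SimpleGraph.pathGraph 3 □ SimpleGraph.pathGraph k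

variable {G : SimpleGraph V} {S T U A B : Set V} {d : ℕ}

theorem reach_symm {a b : V} (h : Reach G.Adj U a b) : Reach G.Adj U b a :=
  h.ind (P := fun x => Reach G.Adj U x a) (Reach.refl h.1)
    fun _ _ _ ih he hy => Reach.head hy he.symm ih

theorem conn_of_root (r : V) (h : ∀ x ∈ S, Reach G.Adj S r x) : Conn G S :=
  fun x hx y hy => (reach_symm (h x hx)).trans (h y hy)

theorem conn_singleton (x : V) : Conn G {x} := by
  rintro a rfl b rfl; exact Reach.refl rfl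

theorem subset_Nb : S ⊆ Nb G S := fun x hx => ⟨x, hx, Or.inl rfl⟩

theorem Nb_mono (h : S ⊆ T) : Nb G S ⊆ Nb G T := fun _ ⟨y, hy, h'⟩ => ⟨y, h hy, h'⟩

theorem Far.symm (h : Far G S T) : Far G T S :=
  fun x hx y hy => ⟨(h y hy x hx).1.symm, fun h' => (h y hy x hx).2 h'.symm⟩

theorem Far.mono {S' T' : Set V} (h : Far G S T) (h1 : S' ⊆ S) (h2 : T' ⊆ T) : Far G S' T' :=
  fun x hx y hy => h x (h1 hx) y (h2 hy)

theorem far_iff : Far G S T ↔ ∀ x ∈ S, x ∉ Nb G T := by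
  constructor
  · rintro h x hx ⟨y, hy, h' | h'⟩
    · exact (h x hx y hy).1 h'
    · exact (h x hx y hy).2 h'
  · exact fun h x hx y hy => ⟨fun e => h x hx ⟨y, hy, Or.inl e⟩, fun e => h x hx ⟨y, hy, Or.inr e⟩⟩

theorem Far.disjoint (h : Far G S T) : Disjoint S T :=
  Set.disjoint_left.2 fun x hx hx' => (h x hx x hx').1 rfl

theorem Far.not_touch (h : Far G S T) : ¬ Touch G S T :=
  fun ⟨x, hx, y, hy, e⟩ => (h x hx y hy).2 e

theorem far_of (h1 : Disjoint S T) (h2 : ¬ Touch G S T) : Far G S T :=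
  fun x hx y hy => ⟨fun e => Set.disjoint_left.1 h1 hx (e ▸ hy), fun e => h2 ⟨x, hx, y, hy, e⟩⟩

theorem Touch.symm (h : Touch G S T) : Touch G T S :=
  let ⟨x, hx, y, hy, e⟩ := h; ⟨y, hy, x, hx, e.symm⟩

theorem Touch.mono {S' T' : Set V} (h : Touch G S T) (h1 : S ⊆ S') (h2 : T ⊆ T') :
    Touch G S' T' :=
  let ⟨x, hx, y, hy, e⟩ := h; ⟨x, h1 hx, y, h2 hy, e⟩

/-- A set covered by connected pieces that all meet the closed neighbourhood of a connected
subset is connected. -/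
theorem conn_of_cover {R : Set V} (hRS : R ⊆ S) (hR : Conn G R)
    (h : ∀ x ∈ S, x ∈ R ∨ ∃ P ⊆ S, Conn G P ∧ x ∈ P ∧ ∃ z ∈ P, z ∈ Nb G R) : Conn G S := by
  have key : ∀ x ∈ S, ∃ r ∈ R, Reach G.Adj S x r := by
    intro x hx
    rcases h x hx with h1 | ⟨P, hP, hc, hxP, z, hz, r, hr, h2⟩
    · exact ⟨x, h1, Reach.refl hx⟩
    · refine ⟨r, hr, ?_⟩
      have := (hc x hxP z hz).mono hP
      rcases h2 with rfl | h2
      · exact this
      · exact this.tail h2 (hRS hr)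
  intro x hx y hy
  obtain ⟨r, hr, h1⟩ := key x hx
  obtain ⟨r', hr', h2⟩ := key y hy
  exact (h1.trans ((hR r hr r' hr').mono hRS)).trans (reach_symm h2)

theorem Conn.union (hS : Conn G S) (hT : Conn G T) (h : ∃ z ∈ T, z ∈ Nb G S) :
    Conn G (S ∪ T) :=
  conn_of_cover Set.subset_union_left hS fun _ hx =>
    hx.imp id fun hx => ⟨T, Set.subset_union_right, hT, hx, h⟩

theorem conn_pts {y : ℕ → V} {n a b : ℕ} (hy : ∀ i < n, G.Adj (y i) (y (i + 1))) (hb : b ≤ n) :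
    Conn G (pts y a b) := by
  refine conn_of_root (y a) ?_
  rintro _ ⟨i, h1, h2, rfl⟩
  exact reach_seg hy a i h1 (by omega) fun j h3 h4 => ⟨j, h3, by omega, rfl⟩

theorem IsIP.adj {y : ℕ → V} {n : ℕ} (h : IsIP G y n) : ∀ i < n, G.Adj (y i) (y (i + 1)) :=
  fun i hi => ((h i hi.le (i + 1) hi).1).2 (Or.inl rfl)

theorem IsIP.conn {y : ℕ → V} {n a b : ℕ} (h : IsIP G y n) (hb : b ≤ n) : Conn G (pts y a b) :=
  conn_pts h.adj hb

/-- A subpath of an induced path. -/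
theorem IsIP.shift {y : ℕ → V} {n : ℕ} (h : IsIP G y n) (a m : ℕ) (hm : a + m ≤ n) :
    IsIP G (fun i => y (a + i)) m := by
  intro i hi j hj
  have := h (a + i) (by omega) (a + j) (by omega)
  exact ⟨this.1.trans (by omega), fun e => by have := this.2 e; omega⟩

theorem pts_shift (y : ℕ → V) (a m : ℕ) : pts (fun i => y (a + i)) 0 m = pts y a (a + m) := by
  ext x
  constructor
  · rintro ⟨i, -, h, rfl⟩; exact ⟨a + i, by omega, by omega, rfl⟩
  · rintro ⟨i, h1, h2, rfl⟩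
    exact ⟨i - a, by omega, by omega, by simp only; rw [show a + (i - a) = i by omega]⟩

theorem pts_mono (y : ℕ → V) {a b a' b' : ℕ} (h1 : a' ≤ a) (h2 : b ≤ b') :
    pts y a b ⊆ pts y a' b' := by
  rintro _ ⟨i, h3, h4, rfl⟩; exact ⟨i, by omega, by omega, rfl⟩

theorem SF.pos (h : SF G d) (v : V) : 0 < d := by simpa using h v ∅

theorem AlLe.mono {t t' : ℕ} (h : AlLe G T t) (hS : S ⊆ T) (ht : t ≤ t') : AlLe G S t' :=
  fun s h1 h2 => (h s (fun x hx => hS (h1 x hx)) h2).trans ht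

theorem alLe_empty (t : ℕ) : AlLe G ∅ t := by
  intro s h _
  have : s = ∅ := Finset.eq_empty_of_forall_notMem h
  simp [this]

theorem AlLe.union {t t' : ℕ} (h : AlLe G S t) (h' : AlLe G T t') : AlLe G (S ∪ T) (t + t') := by
  classical
  intro s h1 h2
  have e1 := h (s.filter (· ∈ S)) (fun x hx => (Finset.mem_filter.1 hx).2)
    fun x hx y hy => h2 x (Finset.mem_filter.1 hx).1 y (Finset.mem_filter.1 hy).1
  have e2 := h' (s.filter (¬ · ∈ S))
    (fun x hx => (h1 x (Finset.mem_filter.1 hx).1).resolve_left (Finset.mem_filter.1 hx).2)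
    fun x hx y hy => h2 x (Finset.mem_filter.1 hx).1 y (Finset.mem_filter.1 hy).1
  have := Finset.card_filter_add_card_filter_not (s := s) (· ∈ S)
  omega

theorem alLe_finset (s : Finset V) : AlLe G s s.card :=
  fun _ h _ => Finset.card_le_card fun x hx => h x hx

theorem alLe_biUnion {ι : Type} (F : Finset ι) (X : ι → Set V) (t : ℕ)
    (h : ∀ i ∈ F, AlLe G (X i) t) : AlLe G (⋃ i ∈ F, X i) (F.card * t) := by
  classical
  induction F using Finset.induction_on with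
  | empty => simpa using alLe_empty 0
  | insert a F ha ih =>
    rw [Finset.set_biUnion_insert, Finset.card_insert_of_notMem ha, add_mul, one_mul, add_comm]
    exact (h a (by simp)).union (ih fun i hi => h i (by simp [hi]))

/-- A vertex is in the closed neighbourhood of at most `d` pairwise far sets. -/
theorem SF.card_far {ι : Type} (h : SF G d) (v : V) (Z : ι → Set V) (F : Finset ι)
    (hZ : ∀ i ∈ F, ∀ j ∈ F, i ≠ j → Far G (Z i) (Z j)) (hv : ∀ i ∈ F, v ∈ Nb G (Z i)) :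
    F.card ≤ d := by
  classical
  have : Nonempty V := ⟨v⟩
  choose! x hx hx' using hv
  by_cases h0 : ∃ i ∈ F, v = x i
  · obtain ⟨i, hi, e⟩ := h0
    have : F.card ≤ 1 := Finset.card_le_one.2 fun a ha b hb => by
      have k : ∀ a ∈ F, a = i := fun a ha => by
        by_contra hne
        have := hZ i hi a ha (Ne.symm hne) _ (hx i hi) _ (hx a ha)
        rw [← e] at this
        exact (hx' a ha).elim this.1 this.2
      rw [k a ha, k b hb]
    have := h.pos v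
    omega
  · push Not at h0
    have hinj : Set.InjOn x F := fun a ha b hb e => by
      by_contra hne
      exact (hZ a ha b hb hne _ (hx a ha) _ (hx b hb)).1 e
    have := h v (F.image x) (by
      intro z hz
      obtain ⟨i, hi, rfl⟩ := Finset.mem_image.1 hz
      exact (hx' i hi).resolve_left (h0 i hi)) (by
      intro z hz z' hz'
      obtain ⟨i, hi, rfl⟩ := Finset.mem_image.1 hz
      obtain ⟨j, hj, rfl⟩ := Finset.mem_image.1 hz'
      by_cases e : i = j
      · subst e; exact G.irrefl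
      · exact (hZ i hi j hj e _ (hx i hi) _ (hx j hj)).2)
    rw [Finset.card_image_of_injOn hinj] at this
    exact this.le

theorem SF.alLe_Nb (h : SF G d) (v : V) : AlLe G (Nb G {v}) d := by
  intro s h1 h2
  refine h.card_far v (fun x => {x}) s ?_ ?_
  · rintro a ha b hb hne _ rfl _ rfl
    exact ⟨hne, h2 _ ha _ hb⟩
  · intro a ha
    obtain ⟨_, rfl, h3⟩ := h1 a ha
    exact ⟨a, rfl, h3.imp Eq.symm SimpleGraph.Adj.symm⟩

/-- A vertex has at most `2 d` neighbours on an induced path. -/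
theorem SF.card_path (h : SF G d) (v : V) {y : ℕ → V} {n : ℕ} (hy : IsIP G y n) (F : Finset ℕ)
    (hF : ∀ p ∈ F, p ≤ n ∧ G.Adj v (y p)) : F.card ≤ 2 * d := by
  have key : ∀ r, (F.filter (· % 2 = r)).card ≤ d := by
    intro r
    refine h.card_far v (fun p => {y p}) _ ?_ ?_
    · rintro a ha b hb hne _ rfl _ rfl
      rw [Finset.mem_filter] at ha hb
      have := hy a (hF a ha.1).1 b (hF b hb.1).1
      exact ⟨fun e => hne (this.2 e), fun e => by have := this.1.1 e; omega⟩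
    · intro a ha
      exact ⟨_, rfl, Or.inr (hF a (Finset.mem_filter.1 ha).1).2⟩
  have := Finset.card_filter_add_card_filter_not (s := F) (· % 2 = 0)
  have e : F.filter (fun p => ¬ p % 2 = 0) = F.filter (· % 2 = 1) :=
    Finset.filter_congr fun p _ => by omega
  have h0 := key 0
  have h1 := key 1
  rw [e] at this
  omega

/-- Breadth first search from `A` inside `U`. -/
theorem exists_lev (G : SimpleGraph V) (U A : Set V) : ∃ lev : V → ℕ,
    (∀ x ∈ A, x ∈ U → lev x = 0) ∧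
    (∀ x x', (∃ a ∈ A, Reach G.Adj U a x) → G.Adj x x' → x' ∈ U → lev x' ≤ lev x + 1) ∧
    ∀ x, (∃ a ∈ A, Reach G.Adj U a x) → ∃ y : ℕ → V, y 0 ∈ A ∧ y (lev x) = x ∧
      IsIP G y (lev x) ∧ ∀ i ≤ lev x, y i ∈ U ∧ lev (y i) = i := by
  classical
  let L : ℕ → Set V := fun n => Nat.rec (A ∩ U) (fun _ L => {x | x ∈ U ∧ ∃ z ∈ L, G.Adj z x}) n
  have hL : ∀ n x, x ∈ L (n + 1) ↔ x ∈ U ∧ ∃ z ∈ L n, G.Adj z x := fun _ _ => Iff.rfl
  have hR : ∀ x, (∃ a ∈ A, Reach G.Adj U a x) ↔ ∃ n, x ∈ L n := by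
    intro x
    constructor
    · rintro ⟨a, ha, h⟩
      exact h.ind (P := fun x => ∃ n, x ∈ L n) ⟨0, ha, h.1⟩
        fun _ _ _ ⟨n, hn⟩ he hy => ⟨n + 1, hy, _, hn, he⟩
    · rintro ⟨n, hn⟩
      induction n generalizing x with
      | zero => exact ⟨x, hn.1, Reach.refl hn.2⟩
      | succ n ih =>
        obtain ⟨h1, z, hz, h2⟩ := hn
        obtain ⟨a, ha, h⟩ := ih z hz
        exact ⟨a, ha, h.tail h2 h1⟩
  let lev : V → ℕ := fun x => sInf {n | x ∈ L n}
  have l1 : ∀ x n, x ∈ L n → lev x ≤ n := fun x n h => Nat.sInf_le h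
  have l2 : ∀ x, (∃ n, x ∈ L n) → x ∈ L (lev x) := fun x h => Nat.sInf_mem (s := {n | x ∈ L n}) h
  have l3 : ∀ x x', (∃ n, x ∈ L n) → G.Adj x x' → x' ∈ U → lev x' ≤ lev x + 1 :=
    fun x x' h he hx' => l1 _ _ ⟨hx', x, l2 x h, he⟩
  have l4 : ∀ n x, x ∈ L n → x ∈ U := by
    intro n x hx
    cases n with
    | zero => exact hx.2
    | succ n => exact hx.1
  have key : ∀ n x, x ∈ L n → lev x = n → ∃ y : ℕ → V, y n = x ∧
      (∀ i < n, G.Adj (y i) (y (i + 1))) ∧ ∀ i ≤ n, y i ∈ L i ∧ lev (y i) = i := by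
    intro n
    induction n with
    | zero =>
      intro x hx e
      exact ⟨fun _ => x, rfl, by simp, fun i hi => by obtain rfl : i = 0 := by omega
                                                      exact ⟨hx, e⟩⟩
    | succ n ih =>
      rintro x ⟨h1, z, hz, h2⟩ e
      have e1 := l1 z n hz
      have e2 := l3 z x ⟨n, hz⟩ h2 h1
      obtain ⟨y, y1, y2, y3⟩ := ih z hz (by omega)
      refine ⟨fun i => if i ≤ n then y i else x, by simp, fun i hi => ?_, fun i hi => ?_⟩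
      · by_cases h : i < n
        · simp only [show i ≤ n by omega, show i + 1 ≤ n by omega, if_true]; exact y2 i h
        · obtain rfl : i = n := by omega
          simpa [y1] using h2
      · by_cases h : i ≤ n
        · simp only [h, if_true]; exact y3 i h
        · obtain rfl : i = n + 1 := by omega
          simp only [h, if_false]
          exact ⟨⟨h1, z, hz, h2⟩, e⟩
  refine ⟨lev, fun x h1 h2 => Nat.le_zero.1 (l1 x 0 ⟨h1, h2⟩),
    fun x x' h => l3 x x' ((hR x).1 h), fun x h => ?_⟩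
  obtain ⟨y, y1, y2, y3⟩ := key _ x (l2 x ((hR x).1 h)) rfl
  refine ⟨y, (y3 0 (by omega)).1.1, y1, fun i hi j hj => ⟨⟨fun e => ?_, ?_⟩, fun e => ?_⟩,
    fun i hi => ⟨l4 _ _ (y3 i hi).1, (y3 i hi).2⟩⟩
  · have a1 := l3 _ _ ⟨_, (y3 i hi).1⟩ e (l4 _ _ (y3 j hj).1)
    have a2 := l3 _ _ ⟨_, (y3 j hj).1⟩ e.symm (l4 _ _ (y3 i hi).1)
    have a3 : i ≠ j := fun e' => by subst e'; exact G.irrefl e
    rw [(y3 i hi).2, (y3 j hj).2] at a1 a2
    omega
  · rintro (rfl | rfl)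
    · exact y2 i (by omega)
    · exact (y2 j (by omega)).symm
  · rw [← (y3 i hi).2, ← (y3 j hj).2, e]

/-- A connection from `A` to `B` inside `U` contains a minimal one. -/
theorem exists_link (h : ∃ a ∈ A, ∃ b ∈ B, Reach G.Adj U a b) :
    ∃ y n, Link G A B y n ∧ pts y 0 n ⊆ U := by
  obtain ⟨lev, l0, -, l2⟩ := exists_lev G U A
  obtain ⟨a, ha, b, hb, hab⟩ := h
  have hne : {n | ∃ b ∈ B, (∃ a ∈ A, Reach G.Adj U a b) ∧ lev b = n}.Nonempty :=
    ⟨_, b, hb, ⟨a, ha, hab⟩, rfl⟩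
  obtain ⟨b, hb, hr, e⟩ := Nat.sInf_mem hne
  obtain ⟨y, y0, y1, y2, y3⟩ := l2 b hr
  refine ⟨y, lev b, ⟨y2, fun i hi => ⟨⟨fun h => ?_, ?_⟩, ⟨fun h => ?_, ?_⟩⟩⟩, ?_⟩
  · rw [← (y3 i hi).2]; exact l0 _ h (y3 i hi).1
  · rintro rfl; exact y0
  · have : sInf {n | ∃ b ∈ B, (∃ a ∈ A, Reach G.Adj U a b) ∧ lev b = n} ≤ i :=
      Nat.sInf_le ⟨_, h, ⟨_, y0, reach_seg y2.adj 0 i (by omega) hi
        fun j _ hj => (y3 j (by omega)).1⟩, (y3 i hi).2⟩
    omega
  · rintro rfl; rwa [y1]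
  · rintro _ ⟨i, -, hi, rfl⟩; exact (y3 i hi).1

/-- Greedy maximal independent sets, heavier vertices first. -/
theorem exists_indep (G : SimpleGraph V) (w : V → ℕ) (s : Finset V) :
    ∃ J ⊆ s, (∀ x ∈ J, ∀ y ∈ J, ¬ G.Adj x y) ∧
      ∀ v ∈ s, v ∈ J ∨ ∃ j ∈ J, G.Adj v j ∧ w v ≤ w j := by
  classical
  induction s using Finset.strongInduction with
  | H s ih =>
    rcases s.eq_empty_or_nonempty with rfl | hne
    · exact ⟨∅, by simp, by simp, by simp⟩
    obtain ⟨v, hv, hmax⟩ := s.exists_max_image w hne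
    obtain ⟨J, h1, h2, h3⟩ := ih (s.filter fun x => x ≠ v ∧ ¬ G.Adj x v)
      ⟨Finset.filter_subset _ _, fun h => by simpa using h hv⟩
    refine ⟨insert v J, Finset.insert_subset hv (h1.trans (Finset.filter_subset _ _)), ?_, ?_⟩
    · intro x hx y hy
      rcases Finset.mem_insert.1 hx with e | hx' <;> rcases Finset.mem_insert.1 hy with e' | hy'
      · rw [e, e']; exact G.irrefl
      · rw [e]; exact fun e => (Finset.mem_filter.1 (h1 hy')).2.2 e.symm
      · rw [e']; exact (Finset.mem_filter.1 (h1 hx')).2.2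
      · exact h2 x hx' y hy'
    · intro x hx
      by_cases e : x = v
      · simp [e]
      by_cases e' : G.Adj x v
      · exact Or.inr ⟨v, by simp, e', hmax x hx⟩
      rcases h3 x (Finset.mem_filter.2 ⟨hx, e, e'⟩) with h | ⟨j, hj, h⟩
      · exact Or.inl (Finset.mem_insert_of_mem h)
      · exact Or.inr ⟨j, Finset.mem_insert_of_mem hj, h⟩

/-- A relation of bounded outdegree has a large independent set. -/
theorem exists_free {ι : Type} (R : ι → ι → Prop) (b : ℕ) (s : Finset ι)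
    (hb : ∀ x ∈ s, ∀ F ⊆ s, (∀ y ∈ F, R x y) → F.card ≤ b) :
    ∃ J ⊆ s, s.card ≤ (2 * b + 1) * J.card ∧ ∀ x ∈ J, ∀ y ∈ J, x ≠ y → ¬ R x y := by
  classical
  induction s using Finset.strongInduction with
  | H s ih =>
    rcases s.eq_empty_or_nonempty with rfl | hne
    · exact ⟨∅, by simp, by simp, by simp⟩
    have h1 : ∃ v ∈ s, (s.filter fun x => R x v).card ≤ b := by
      by_contra hc
      push Not at hc
      have e := Finset.sum_card_bipartiteAbove_eq_sum_card_bipartiteBelow (s := s) (t := s) R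
      have e1 : ∑ a ∈ s, (Finset.bipartiteAbove R s a).card ≤ ∑ _a ∈ s, b :=
        Finset.sum_le_sum fun a ha => hb a ha _ (Finset.filter_subset _ _)
          fun y hy => (Finset.mem_filter.1 hy).2
      have e2 : ∑ _a ∈ s, b < ∑ a ∈ s, (Finset.bipartiteBelow R s a).card :=
        Finset.sum_lt_sum_of_nonempty hne fun a ha => hc a ha
      omega
    obtain ⟨v, hv, hin⟩ := h1
    obtain ⟨J, j1, j2, j3⟩ := ih (s.filter fun x => x ≠ v ∧ ¬ R x v ∧ ¬ R v x)
      ⟨Finset.filter_subset _ _, fun h => by simpa using h hv⟩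
      fun x hx F hF => hb x (Finset.mem_filter.1 hx).1 F (hF.trans (Finset.filter_subset _ _))
    have hvJ : v ∉ J := fun h => (Finset.mem_filter.1 (j1 h)).2.1 rfl
    refine ⟨insert v J, Finset.insert_subset hv (j1.trans (Finset.filter_subset _ _)), ?_, ?_⟩
    · have hout := hb v hv (s.filter fun x => R v x) (Finset.filter_subset _ _)
        fun y hy => (Finset.mem_filter.1 hy).2
      have hsub : s ⊆ insert v ((s.filter fun x => x ≠ v ∧ ¬ R x v ∧ ¬ R v x) ∪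
          ((s.filter fun x => R x v) ∪ s.filter fun x => R v x)) := by
        intro x hx
        simp only [Finset.mem_insert, Finset.mem_union, Finset.mem_filter, hx, true_and]
        tauto
      have a1 := (Finset.card_le_card hsub).trans (Finset.card_insert_le _ _)
      have a2 := Finset.card_union_le (s.filter fun x => x ≠ v ∧ ¬ R x v ∧ ¬ R v x)
        ((s.filter fun x => R x v) ∪ s.filter fun x => R v x)
      have a3 := Finset.card_union_le (s.filter fun x => R x v) (s.filter fun x => R v x)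
      rw [Finset.card_insert_of_notMem hvJ, mul_add]
      omega
    · intro x hx y hy hne
      rcases Finset.mem_insert.1 hx with e | hx' <;> rcases Finset.mem_insert.1 hy with e' | hy'
      · exact absurd (e.trans e'.symm) hne
      · rw [e]; exact (Finset.mem_filter.1 (j1 hy')).2.2.2
      · rw [e']; exact (Finset.mem_filter.1 (j1 hx')).2.2.1
      · exact j3 x hx' y hy' hne

end Pool.Agent.Work.MP_7f4e13_co.S
end

-- merged part: Pool.Agent.Work.MP_7f4e13_co.S.P1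
section
/-!
Histories of the star partition process; a large active set gives any induced minor.
-/

namespace Pool.Agent.Work.MP_7f4e13_co.S

open Pool.Agent.Work.MP_97603a_co (Reach reach_seg)

variable {V : Type}

/-- The data of one step: region, active earlier steps, core, connectors, killed vertices. -/
structure Step (V : Type) where
  C : Set V
  I : Finset ℕ
  R : Set V
  z : ℕ → V
  J : Finset V

/-- The vertices removed in a step. -/
def Step.T (G : SimpleGraph V) (s : Step V) : Set V := Nb G s.R ∩ s.C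

/-- The removed vertices and the neighbours of the connectors. -/
def Step.TS (G : SimpleGraph V) (s : Step V) : Set V :=
  s.T G ∪ {x | ∃ i ∈ s.I, G.Adj x (s.z i)}

/-- The outer boundary. -/
def bd (G : SimpleGraph V) (C : Set V) : Set V := {x | x ∉ C ∧ ∃ y ∈ C, G.Adj x y}

/-- The step `s` is a correct step number `m` after the history `h`. -/
structure Core (G : SimpleGraph V) (t a : ℕ) (h : ℕ → Step V) (m : ℕ) (s : Step V) : Prop where
  lt : ∀ l ∈ s.I, l < m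
  sub : s.R ⊆ s.C
  conn : Conn G s.R
  zout : ∀ l ∈ s.I, s.z l ∉ s.C
  zadj : ∀ l ∈ s.I, ∃ r ∈ s.R, G.Adj (s.z l) r
  zkill : ∀ l ∈ s.I, ∀ x ∈ s.C, G.Adj (s.z l) x → x ∈ Nb G s.R
  zmem : ∀ l ∈ s.I, s.z l ∈ (h l).TS G
  zpriv : ∀ l ∈ s.I, ∀ l' ∈ s.I, s.z l ∈ (h l').TS G → l' = l
  icard : s.I.card ≤ t
  jcard : s.J.card ≤ a
  jout : ∀ j ∈ s.J, j ∉ s.C
  jkill : ∀ j ∈ s.J, ∀ x ∈ s.C, G.Adj j x → x ∈ Nb G s.R
  cover : ∀ v ∈ bd G s.C, ∃ l ∈ s.I, v ∈ (h l).TS G
  block : ∀ v ∈ bd G s.C, (∃ l ∈ s.I, v ∈ (h l).T G) ∨ v ∈ s.J ∨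
    ∃ j ∈ s.J, G.Adj v j ∧ ∀ l < m, v ∈ (h l).C → j ∈ (h l).C

theorem Core.congr {G : SimpleGraph V} {t a : ℕ} {h h' : ℕ → Step V} {m : ℕ} {s : Step V}
    (c : Core G t a h m s) (e : ∀ l < m, h' l = h l) : Core G t a h' m s :=
  { c with
    zmem := fun l hl => by rw [e l (c.lt l hl)]; exact c.zmem l hl
    zpriv := fun l hl l' hl' => by rw [e l' (c.lt l' hl')]; exact c.zpriv l hl l' hl'
    cover := fun v hv => by
      obtain ⟨l, hl, h1⟩ := c.cover v hv
      exact ⟨l, hl, by rwa [e l (c.lt l hl)]⟩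
    block := fun v hv => by
      rcases c.block v hv with ⟨l, hl, h1⟩ | h1 | ⟨j, hj, h1, h2⟩
      · exact Or.inl ⟨l, hl, by rwa [e l (c.lt l hl)]⟩
      · exact Or.inr (Or.inl h1)
      · exact Or.inr (Or.inr ⟨j, hj, h1, fun l hl => by rw [e l hl]; exact h2 l hl⟩) }

/-- The steps `0, …, n` of `h` are correct. -/
structure Valid (G : SimpleGraph V) (t a : ℕ) (h : ℕ → Step V) (n : ℕ) : Prop where
  core : ∀ m ≤ n, Core G t a h m (h m)
  next : ∀ m < n, ∀ x ∈ (h (m + 1)).C, x ∈ (h m).C ∧ x ∉ Nb G (h m).R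
  act : ∀ m < n, (h (m + 1)).I ⊆ insert m (h m).I

variable {G : SimpleGraph V} {t a n d : ℕ} {h : ℕ → Step V}

theorem Valid.mono (v : Valid G t a h n) {l m : ℕ} (h1 : l ≤ m) (h2 : m ≤ n) :
    (h m).C ⊆ (h l).C := by
  induction m, h1 using Nat.le_induction with
  | base => exact subset_rfl
  | succ m _ ih => exact fun x hx => ih (by omega) (v.next m (by omega) x hx).1

theorem Valid.avoid (v : Valid G t a h n) {l m : ℕ} (h1 : l < m) (h2 : m ≤ n) {x : V}
    (hx : x ∈ (h m).C) : x ∉ Nb G (h l).R :=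
  (v.next l (by omega) x (v.mono (l := l + 1) h1 h2 hx)).2

theorem Valid.far (v : Valid G t a h n) {l m : ℕ} (h1 : l ≠ m) (h2 : l ≤ n) (h3 : m ≤ n) :
    Far G (h l).R (h m).R := by
  have key : ∀ l m, l < m → m ≤ n → Far G (h m).R (h l).R := fun l m h1 h2 =>
    far_iff.2 fun x hx => v.avoid h1 h2 ((v.core m h2).sub hx)
  rcases lt_or_gt_of_ne h1 with h4 | h4
  · exact (key l m h4 h3).symm
  · exact key m l h4 h2

theorem Valid.active (v : Valid G t a h n) {l m : ℕ} (hl : l ∈ insert n (h n).I) (h1 : l < m)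
    (h2 : m ≤ n) : l ∈ (h m).I := by
  induction h2 using Nat.decreasingInduction with
  | self => exact (Finset.mem_insert.1 hl).resolve_left (by omega)
  | of_succ k hk ih =>
    exact (Finset.mem_insert.1 (v.act k hk (ih (by omega)))).resolve_left (by omega)

theorem exists_freeSet (b N : ℕ) : ∃ t, ∀ (I : Finset ℕ) (bad : ℕ → ℕ → ℕ → Prop),
    (∀ l ∈ I, ∀ m ∈ I, l < m → ∀ F ⊆ I, (∀ x ∈ F, bad l m x) → F.card ≤ b) → t ≤ I.card →
    ∃ M ⊆ I, M.card = N ∧ ∀ l ∈ M, ∀ m ∈ M, ∀ x ∈ M, l < m → x < m → x ≠ l → ¬ bad l m x := by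
  induction N with
  | zero => exact ⟨0, fun I bad _ _ => ⟨∅, by simp, by simp, by simp⟩⟩
  | succ N ih =>
    obtain ⟨t, ht⟩ := ih
    refine ⟨(2 * b + 1) * t + 1, fun I bad hb hI => ?_⟩
    have hne : I.Nonempty := Finset.card_pos.1 (by omega)
    have hm := I.max'_mem hne
    set m := I.max' hne with hmd
    have hlt : ∀ x ∈ I.erase m, x < m := fun x hx =>
      lt_of_le_of_ne (I.le_max' x (Finset.mem_of_mem_erase hx)) (Finset.ne_of_mem_erase hx)
    obtain ⟨J, j1, j2, j3⟩ := exists_free (fun x y => bad x m y) b (I.erase m)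
      fun x hx F hF => hb x (Finset.mem_of_mem_erase hx) m hm (hlt x hx) F
        (hF.trans (Finset.erase_subset _ _))
    have hJI : J ⊆ I := j1.trans (Finset.erase_subset _ _)
    rw [Finset.card_erase_of_mem hm] at j2
    obtain ⟨M, m1, m2, m3⟩ := ht J bad
      (fun l hl m' hm' hlm F hF => hb l (hJI hl) m' (hJI hm') hlm F (hF.trans hJI))
      (Nat.le_of_mul_le_mul_left (show (2 * b + 1) * t ≤ (2 * b + 1) * J.card by omega)
        (by omega))
    have hM : ∀ x ∈ M, x < m := fun x hx => hlt x (j1 (m1 hx))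
    refine ⟨insert m M, Finset.insert_subset hm (m1.trans hJI), ?_, ?_⟩
    · rw [Finset.card_insert_of_notMem fun hx => lt_irrefl _ (hM m hx), m2]
    · intro l hl p hp x hx hlp hxp hxl
      rcases Finset.mem_insert.1 hp with e | hp'
      · have hl' : l ∈ M := (Finset.mem_insert.1 hl).resolve_left (by omega)
        have hx' : x ∈ M := (Finset.mem_insert.1 hx).resolve_left (by omega)
        rw [e]
        exact j3 l (m1 hl') x (m1 hx') (Ne.symm hxl)
      · have := hM p hp'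
        exact m3 l ((Finset.mem_insert.1 hl).resolve_left (by omega)) p hp' x
          ((Finset.mem_insert.1 hx).resolve_left (by omega)) hlp hxp hxl

theorem model_of_big (d N : ℕ) : ∃ t₀, ∀ (W : Type) [Finite W] (H : SimpleGraph W),
    Nat.card W ≤ N →
    ∀ (V : Type) (G : SimpleGraph V) (t a n : ℕ) (h : ℕ → Step V) (I : Finset ℕ), SF G d →
      Valid G t a h n → I ⊆ insert n (h n).I → (∀ l ∈ I, (h l).R.Nonempty) → t₀ ≤ I.card →
      Model G H := by
  classical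
  obtain ⟨t₀, ht⟩ := exists_freeSet (2 * d + 1) N
  refine ⟨t₀, fun W _ H hW V G t a n h I hd v hI hne hbig => ?_⟩
  have := Fintype.ofFinite W
  have hle : ∀ l ∈ I, l ≤ n := fun l hl => by
    rcases Finset.mem_insert.1 (hI hl) with e | e
    · omega
    · exact ((v.core n le_rfl).lt l e).le
  have hact : ∀ l ∈ I, ∀ m ∈ I, l < m → l ∈ (h m).I := fun l hl m hm hlm =>
    v.active (hI hl) hlm (hle m hm)
  have hι : ∀ l m : ℕ, ∃ i, l ∈ I → m ∈ I → l < m → (h m).z l ∉ (h l).T G →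
      i ∈ (h l).I ∧ G.Adj ((h m).z l) ((h l).z i) := by
    intro l m
    by_cases hc : l ∈ I ∧ m ∈ I ∧ l < m ∧ (h m).z l ∉ (h l).T G
    · obtain ⟨h1, h2, h3, h4⟩ := hc
      obtain ⟨i, hi⟩ := ((v.core m (hle m h2)).zmem l (hact l h1 m h2 h3)).resolve_left h4
      exact ⟨i, fun _ _ _ _ => hi⟩
    · exact ⟨0, fun h1 h2 h3 h4 => absurd ⟨h1, h2, h3, h4⟩ hc⟩
  choose ι hι using hι
  obtain ⟨M, hMI, hMc, hM⟩ := ht I (fun l m x => (h m).z l ∈ Nb G (h x).R ∨ x = ι l m ∨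
      (h l).z (ι l m) ∈ Nb G (h x).R) (by
    intro l _ m _ _ F hF hb
    have key : ∀ y : V, (F.filter fun x => y ∈ Nb G (h x).R).card ≤ d := fun y =>
      hd.card_far y (fun x => (h x).R) _ (fun i hi j hj hij => v.far hij
        (hle i (hF (Finset.mem_filter.1 hi).1)) (hle j (hF (Finset.mem_filter.1 hj).1)))
        fun i hi => (Finset.mem_filter.1 hi).2
    have hs : F ⊆ insert (ι l m) ((F.filter fun x => (h m).z l ∈ Nb G (h x).R) ∪
        F.filter fun x => (h l).z (ι l m) ∈ Nb G (h x).R) := by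
      intro x hx
      have := hb x hx
      simp only [Finset.mem_insert, Finset.mem_union, Finset.mem_filter, hx, true_and]
      tauto
    have a1 := (Finset.card_le_card hs).trans (Finset.card_insert_le _ _)
    have a2 := Finset.card_union_le (F.filter fun x => (h m).z l ∈ Nb G (h x).R)
      (F.filter fun x => (h l).z (ι l m) ∈ Nb G (h x).R)
    have a3 := key ((h m).z l)
    have a4 := key ((h l).z (ι l m))
    omega) hbig
  obtain ⟨e⟩ : Nonempty (W ↪ M) := Function.Embedding.nonempty_of_card_le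
    (by rw [Fintype.card_coe, hMc, ← Nat.card_eq_fintype_card]; exact hW)
  let A : ℕ → ℕ → Prop := fun l m => ∃ w w', (e w : ℕ) = l ∧ (e w' : ℕ) = m ∧ H.Adj w w'
  let U : ℕ → ℕ → Prop := fun m l => (l ∈ M ∧ l < m ∧ A l m) ∨
    ∃ p ∈ M, m < p ∧ (h p).z m ∉ (h m).T G ∧ l = ι m p
  let B : ℕ → Set V := fun m => (h m).R ∪ {x | ∃ l, U m l ∧ (h m).z l = x}
  have hU : ∀ m ∈ M, ∀ l, U m l → l ∈ (h m).I := by
    rintro m hm l (⟨h1, h2, -⟩ | ⟨p, hp, h1, h2, rfl⟩)
    · exact hact l (hMI h1) m (hMI hm) h2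
    · exact (hι m p (hMI hm) (hMI hp) h1 h2).1
  have hU1 : ∀ m ∈ M, ∀ l, U m l → ∀ x ∈ M, x < m → (h m).z l ∈ Nb G (h x).R → A x m := by
    rintro m hm l (⟨h1, h2, h3⟩ | ⟨p, hp, h1, h2, rfl⟩) x hx hxm hz
    · by_cases e : x = l
      · rwa [e]
      · exact absurd (Or.inl hz) (hM l h1 m hm x hx h2 hxm e)
    · exact absurd (Or.inr (Or.inr hz)) (hM m hm p hp x hx h1 (by omega) (by omega))
  have hU2 : ∀ m ∈ M, ∀ x ∈ M, x < m → U m x → A x m := by
    rintro m hm x hx hxm (⟨-, -, h3⟩ | ⟨p, hp, h1, -, h3⟩)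
    · exact h3
    · exact absurd (Or.inr (Or.inl h3)) (hM m hm p hp x hx h1 (by omega) (by omega))
  have hdead : ∀ x ∈ M, ∀ m ∈ M, x < m → ∀ i, U x i → ∀ y ∈ (h m).R,
      ¬ G.Adj ((h x).z i) y := by
    intro x hx m hm hxm i hi y hy e
    have h1 := hle m (hMI hm)
    have h2 := (v.core m h1).sub hy
    exact v.avoid hxm h1 h2
      ((v.core x (by omega)).zkill i (hU x hx i hi) y (v.mono hxm.le h1 h2) e)
  have key : ∀ x ∈ M, ∀ m ∈ M, x < m → Disjoint (B x) (B m) ∧ (A x m ↔ Touch G (B x) (B m)) := by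
    intro x hx m hm hxm
    have h1 := hle m (hMI hm)
    have hf := v.far hxm.ne (by omega) h1
    have hdis : Disjoint (B x) (B m) := by
      rw [Set.disjoint_left]
      rintro y (hy | ⟨i, hi, rfl⟩) (hy' | ⟨l, hl, e⟩)
      · exact (hf y hy y hy').1 rfl
      · obtain ⟨r, hr, e'⟩ := (v.core m h1).zadj l (hU m hm l hl)
        exact (hf y hy r hr).2 (e ▸ e')
      · exact (v.core x (by omega)).zout i (hU x hx i hi)
          (v.mono hxm.le h1 ((v.core m h1).sub hy'))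
      · obtain ⟨r, hr, e'⟩ := (v.core m h1).zadj l (hU m hm l hl)
        exact hdead x hx m hm hxm i hi r hr (e ▸ e')
    refine ⟨hdis, fun hA => ?_, ?_⟩
    · have hz : (h m).z x ∈ B m := Or.inr ⟨x, Or.inl ⟨hx, hxm, hA⟩, rfl⟩
      by_cases hT : (h m).z x ∈ (h x).T G
      · obtain ⟨⟨r, hr, e | e⟩, -⟩ := hT
        · exact absurd hz (Set.disjoint_left.1 hdis (Or.inl (e ▸ hr)))
        · exact ⟨r, Or.inl hr, _, hz, e.symm⟩
      · exact ⟨_, Or.inr ⟨ι x m, Or.inr ⟨m, hm, hxm, hT, rfl⟩, rfl⟩, _, hz,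
          (hι x m (hMI hx) (hMI hm) hxm hT).2.symm⟩
    · rintro ⟨y, hy | ⟨i, hi, rfl⟩, y', hy' | ⟨l, hl, rfl⟩, e⟩
      · exact absurd e (hf y hy y' hy').2
      · exact hU1 m hm l hl x hx hxm ⟨y, hy, Or.inr e.symm⟩
      · exact absurd e (hdead x hx m hm hxm i hi y' hy')
      · have := (v.core m h1).zpriv l (hU m hm l hl) x (hact x (hMI hx) m (hMI hm) hxm)
          (Or.inr ⟨i, hU x hx i hi, e.symm⟩)
        exact hU2 m hm x hx hxm (this ▸ hl)
  have hA : ∀ w w', A (e w) (e w') ↔ H.Adj w w' := fun w w' =>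
    ⟨fun ⟨u, u', h1, h2, h3⟩ => by
      rwa [← e.injective (Subtype.ext h1), ← e.injective (Subtype.ext h2)],
      fun h => ⟨w, w', rfl, rfl, h⟩⟩
  refine ⟨fun w => B (e w), fun w => ⟨(hne _ (hMI (e w).2)).mono Set.subset_union_left, ?_⟩,
    fun w w' hw => ?_⟩
  · have h1 := v.core _ (hle _ (hMI (e w).2))
    refine conn_of_cover Set.subset_union_left h1.conn ?_
    rintro y (hy | ⟨i, hi, rfl⟩)
    · exact Or.inl hy
    · obtain ⟨r, hr, e'⟩ := h1.zadj i (hU _ (e w).2 i hi)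
      exact Or.inr ⟨{_}, Set.singleton_subset_iff.2 (Or.inr ⟨i, hi, rfl⟩), conn_singleton _, rfl,
        _, rfl, r, hr, Or.inr e'⟩
  · have hne' : (e w : ℕ) ≠ e w' := fun h => hw (e.injective (Subtype.ext h))
    rcases lt_or_gt_of_ne hne' with h1 | h1
    · have := key _ (e w).2 _ (e w').2 h1
      exact ⟨this.1, (hA w w').symm.trans this.2⟩
    · have := key _ (e w').2 _ (e w).2 h1
      exact ⟨this.1.symm, (H.adj_comm _ _).trans ((hA w' w).symm.trans
        (this.2.trans ⟨Touch.symm, Touch.symm⟩))⟩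

end Pool.Agent.Work.MP_7f4e13_co.S
end

-- merged part: Pool.Agent.Work.MP_7f4e13_co.S.P2
section
/-!
A clique loses vertices in boundedly many steps.
-/

namespace Pool.Agent.Work.MP_7f4e13_co.S

variable {V : Type} {G : SimpleGraph V} {t a n d : ℕ} {h : ℕ → Step V}

/-- The recursion for the number of steps. -/
def phi (t a : ℕ) : ℕ → ℕ
  | 0 => 1
  | r + 1 => a * (phi t a r + 2) + t + 1

theorem card_drop (W : Finset ℕ) (β : ℕ) (hβ : ∀ m ∈ W, m ≤ β) :
    W.card ≤ (W.filter fun m => m + 1 < β).card + 2 := by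
  have hs : W ⊆ insert β (insert (β - 1) (W.filter fun m => m + 1 < β)) := by
    intro m hm
    have := hβ m hm
    simp only [Finset.mem_insert, Finset.mem_filter, hm, true_and]
    omega
  have a1 := (Finset.card_le_card hs).trans (Finset.card_insert_le _ _)
  have a2 := Finset.card_insert_le (β - 1) (W.filter fun m => m + 1 < β)
  omega

theorem births_aux (v : Valid G t a h n) (x : ℕ → V) (B : Finset ℕ)
    (hB : ∀ m ∈ B, m ≤ n ∧ x m ∈ (h m).T G)
    (hK : ∀ m ∈ B, ∀ m' ∈ B, x m ≠ x m' → G.Adj (x m) (x m')) (r : ℕ) :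
    ∀ W ⊆ B, ∀ β ∈ B, (∀ m ∈ W, m + 1 < β) → phi t a r ≤ W.card →
      ∃ m ∈ W, ∃ s : Finset V, s.card = r ∧ (∀ j ∈ s, G.Adj (x m) j) ∧
        (∀ j ∈ s, ∀ j' ∈ s, ¬ G.Adj j j') ∧
        ∀ j ∈ s, j ∉ (h β).C ∧ ∀ y ∈ (h β).C, ¬ G.Adj j y := by
  classical
  induction r with
  | zero =>
    intro W _ β _ _ hc
    obtain ⟨m, hm⟩ := Finset.card_pos.1 (show 0 < W.card from hc)
    exact ⟨m, hm, ∅, by simp, by simp, by simp, by simp⟩
  | succ r ih =>
    intro W hW β hβ hlt hc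
    simp only [phi] at hc
    obtain ⟨m₀, hm₀⟩ := Finset.card_pos.1 (show 0 < W.card by omega)
    obtain ⟨N, rfl⟩ : ∃ N, β = N + 1 := ⟨β - 1, by have := hlt m₀ hm₀; omega⟩
    obtain ⟨hN, -, hxβ⟩ := hB _ hβ
    have cN := v.core N (by omega)
    have hnext := v.next N (by omega)
    have hbl : ∀ m, ∃ j, m ∈ W \ (h N).I → j ∈ (h N).J ∧ G.Adj (x m) j ∧
        ∀ l < N, x m ∈ (h l).C → j ∈ (h l).C := by
      intro m
      by_cases hm : m ∈ W \ (h N).I
      swap
      · exact ⟨x m, fun h => absurd h hm⟩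
      obtain ⟨hm1, hm2⟩ := Finset.mem_sdiff.1 hm
      have h1 := hlt m hm1
      obtain ⟨-, h2, h3⟩ := hB m (hW hm1)
      have h4 : x m ∉ (h N).C := fun e => v.avoid (l := m) (by omega) (by omega) e h2
      have h5 : G.Adj (x m) (x (N + 1)) := hK m (hW hm1) _ hβ
        fun e => h4 (e ▸ (hnext _ hxβ).1)
      rcases cN.block (x m) ⟨h4, _, (hnext _ hxβ).1, h5⟩ with ⟨l, hl, h6, h7⟩ | h6 | ⟨j, hj⟩
      · have h8 := cN.lt l hl
        rcases lt_trichotomy l m with e | e | e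
        · exact absurd h6 (v.avoid e (by omega) h3)
        · exact absurd (e ▸ hl) hm2
        · exact absurd h2 (v.avoid e (by omega) h7)
      · exact absurd (cN.jkill _ h6 _ (hnext _ hxβ).1 h5) (hnext _ hxβ).2
      · exact ⟨j, fun _ => hj⟩
    choose f hf using hbl
    have hcard : (h N).J.card * (phi t a r + 2) < (W \ (h N).I).card := by
      have a1 := Finset.le_card_sdiff (h N).I W
      have a2 := cN.icard
      have a3 := Nat.mul_le_mul_right (phi t a r + 2) cN.jcard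
      omega
    obtain ⟨j, hj, hfib⟩ := Finset.exists_lt_card_fiber_of_mul_lt_card_of_maps_to
      (fun m hm => (hf m hm).1) hcard
    set W' := (W \ (h N).I).filter fun m => f m = j with hW'
    have hW'W : W' ⊆ W := (Finset.filter_subset _ _).trans Finset.sdiff_subset
    have hne : W'.Nonempty := Finset.card_pos.1 (by omega)
    have hγ := W'.max'_mem hne
    set γ := W'.max' hne
    have hd := card_drop W' γ fun m hm => W'.le_max' m hm
    obtain ⟨m, hm, s, s1, s2, s3, s4⟩ := ih (W'.filter fun m => m + 1 < γ)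
      ((Finset.filter_subset _ _).trans (hW'W.trans hW)) γ (hW (hW'W hγ))
      (fun m hm => (Finset.mem_filter.1 hm).2) (by omega)
    have hm' := (Finset.mem_filter.1 hm).1
    have hγN : γ < N := by have := hlt γ (hW'W hγ); omega
    have hjγ : j ∈ (h γ).C := by
      have := (hf γ (Finset.mem_filter.1 hγ).1).2.2 γ hγN (hB γ (hW (hW'W hγ))).2.2
      rwa [(Finset.mem_filter.1 hγ).2] at this
    have hjs : j ∉ s := fun e => (s4 j e).1 hjγ
    have hmono : (h (N + 1)).C ⊆ (h γ).C := v.mono (by omega) hN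
    refine ⟨m, hW'W hm', insert j s, by rw [Finset.card_insert_of_notMem hjs, s1], ?_, ?_, ?_⟩
    · intro i hi
      rcases Finset.mem_insert.1 hi with e | hi
      · have := (hf m (Finset.mem_filter.1 hm').1).2.1
        rwa [(Finset.mem_filter.1 hm').2, ← e] at this
      · exact s2 i hi
    · intro i hi i' hi'
      rcases Finset.mem_insert.1 hi with e | h1 <;> rcases Finset.mem_insert.1 hi' with e' | h2
      · rw [e, e']; exact G.irrefl
      · rw [e]; exact fun e => (s4 i' h2).2 j hjγ e.symm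
      · rw [e']; exact (s4 i h1).2 j hjγ
      · exact s3 i h1 i' h2
    · intro i hi
      rcases Finset.mem_insert.1 hi with e | hi
      · rw [e]
        exact ⟨fun e => cN.jout j hj (hnext _ e).1,
          fun y hy e => (hnext y hy).2 (cN.jkill j hj y (hnext y hy).1 e)⟩
      · exact ⟨fun e => (s4 i hi).1 (hmono e), fun y hy => (s4 i hi).2 y (hmono hy)⟩

theorem births (hd : SF G d) (v : Valid G t a h n) (K : Finset V)
    (hK : ∀ x ∈ K, ∀ y ∈ K, x ≠ y → G.Adj x y) (B : Finset ℕ)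
    (hB : ∀ m ∈ B, m ≤ n ∧ ∃ x ∈ K, x ∈ (h m).T G) : B.card ≤ phi t a d + 1 := by
  by_contra hc
  have hne : B.Nonempty := Finset.card_pos.1 (by omega)
  obtain ⟨m₀, hm₀⟩ := hne
  obtain ⟨-, x₀, -⟩ := hB m₀ hm₀
  have : Nonempty V := ⟨x₀⟩
  choose! h1 x h2 h3 using hB
  have hβ := B.max'_mem ⟨m₀, hm₀⟩
  have := card_drop B (B.max' ⟨m₀, hm₀⟩) fun m hm => B.le_max' m hm
  obtain ⟨m, -, s, s1, s2, s3, -⟩ := births_aux v x B (fun m hm => ⟨h1 m hm, h3 m hm⟩)
    (fun m hm m' hm' => hK _ (h2 m hm) _ (h2 m' hm')) d _ (Finset.filter_subset _ _) _ hβ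
    (fun m hm => (Finset.mem_filter.1 hm).2) (by omega)
  have := hd _ s s2 s3
  omega

end Pool.Agent.Work.MP_7f4e13_co.S
end

-- merged part: Pool.Agent.Work.MP_7f4e13_co.S.P3
section
/-!
One step of the star partition process.
-/

namespace Pool.Agent.Work.MP_7f4e13_co.S

open Pool.Agent.Work.MP_97603a_co (Reach reach_seg)

variable {V : Type} {G : SimpleGraph V} {t n d : ℕ} {h : ℕ → Step V}

/-- A thin connected core dominating the neighbours in `C` of the vertices of `Y`. -/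
theorem exists_core [Finite V] (hd : SF G d) {C : Set V} {v : V} (hv : v ∈ C) (hC : Conn G C)
    (Y : Finset V) : ∃ R ⊆ C, v ∈ R ∧ Conn G R ∧
      (∀ y ∈ Y, ∀ x ∈ C, G.Adj y x → x ∈ Nb G R ∧ ∃ r ∈ R, G.Adj y r) ∧
      ∀ x₀ ∈ C, ∃ F : Finset V, F.card ≤ (Y.card * d + 1) * 5 ∧ ∀ x ∈ C, (x = x₀ ∨ G.Adj x₀ x) →
        ∀ r ∈ R, (x = r ∨ G.Adj x r) → r ∈ F := by
  classical
  have := Fintype.ofFinite V
  choose U hU1 hU2 hU3 using fun y : V =>
    exists_indep G (fun _ => 0) (Finset.univ.filter fun x => x ∈ C ∧ G.Adj y x)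
  have hU : ∀ y, ∀ x ∈ U y, x ∈ C ∧ G.Adj y x := fun y x hx => (Finset.mem_filter.1 (hU1 y hx)).2
  let P : Finset V := insert v (Y.biUnion U)
  have hP : ∀ u ∈ P, u ∈ C := by
    intro u hu
    rcases Finset.mem_insert.1 hu with e | hu
    · exact e ▸ hv
    · obtain ⟨y, -, hy⟩ := Finset.mem_biUnion.1 hu
      exact (hU y u hy).1
  have hPc : P.card ≤ Y.card * d + 1 := (Finset.card_insert_le _ _).trans
    (Nat.succ_le_succ (Finset.card_biUnion_le_card_mul _ _ _ fun y _ =>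
      (hd y (U y) (fun x hx => (hU y x hx).2) (hU2 y)).le))
  obtain ⟨lev, -, l1, l2⟩ := exists_lev G C {v}
  have hr : ∀ x ∈ C, ∃ a ∈ ({v} : Set V), Reach G.Adj C a x := fun x hx => ⟨v, rfl, hC v hv x hx⟩
  have : Nonempty V := ⟨v⟩
  choose! g g0 g1 g2 g3 using fun x (hx : x ∈ C) => l2 x (hr x hx)
  let R : Set V := {x | ∃ u ∈ P, x ∈ pts (g u) 0 (lev u)}
  have hRC : R ⊆ C := by
    rintro _ ⟨u, hu, i, -, hi, rfl⟩
    exact (g3 u (hP u hu) i hi).1
  have hPR : ∀ u ∈ P, u ∈ R := fun u hu => ⟨u, hu, _, Nat.zero_le _, le_rfl, g1 u (hP u hu)⟩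
  have hl : ∀ x ∈ C, ∀ y ∈ C, (x = y ∨ G.Adj x y) → lev x ≤ lev y + 1 ∧ lev y ≤ lev x + 1 := by
    rintro x hx y hy (rfl | e)
    · omega
    · exact ⟨l1 y x (hr y hy) e.symm hx, l1 x y (hr x hx) e hy⟩
  refine ⟨R, hRC, hPR v (Finset.mem_insert_self _ _), conn_of_root v ?_, ?_, fun x₀ hx₀ => ?_⟩
  · rintro x ⟨u, hu, hx⟩
    have h0 : g u 0 = v := g0 u (hP u hu)
    exact ((g2 u (hP u hu)).conn le_rfl v ⟨0, le_rfl, Nat.zero_le _, h0⟩ x hx).mono
      fun z hz => ⟨u, hu, hz⟩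
  · intro y hy x hx e
    have hm : ∀ u ∈ U y, u ∈ R := fun u hu =>
      hPR u (Finset.mem_insert_of_mem (Finset.mem_biUnion.2 ⟨y, hy, hu⟩))
    rcases hU3 y x (by simp [hx, e]) with h1 | ⟨j, hj, h1, -⟩
    · exact ⟨subset_Nb (hm x h1), x, hm x h1, e⟩
    · exact ⟨⟨j, hm j hj, Or.inr h1⟩, j, hm j hj, (hU y j hj).2⟩
  · refine ⟨(P ×ˢ Finset.Icc (lev x₀ - 2) (lev x₀ + 2)).image fun p => g p.1 p.2, ?_, ?_⟩
    · refine Finset.card_image_le.trans ?_
      rw [Finset.card_product, Nat.card_Icc]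
      exact Nat.mul_le_mul hPc (by omega)
    · rintro x hx e _ ⟨u, hu, i, -, hi, rfl⟩ e'
      have a1 := hl x₀ hx₀ x hx (e.imp Eq.symm id)
      have a2 := hl x hx _ (g3 u (hP u hu) i hi).1 e'
      rw [(g3 u (hP u hu) i hi).2] at a2
      exact Finset.mem_image.2 ⟨(u, i), by
        simp only [Finset.mem_product, hu, Finset.mem_Icc, true_and]; omega, rfl⟩

theorem exists_step [Finite V] (hd : SF G d) (v : Valid G t (t * (t * d)) h n)
    (ht : ∀ I ⊆ insert n (h n).I, (∀ l ∈ I, (h l).R.Nonempty) → I.card ≤ t)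
    {C : Set V} {x₁ : V} (hx₁ : x₁ ∈ C) (hC : Conn G C)
    (hcl : ∀ x ∈ C, ∀ y ∈ (h n).C, G.Adj x y → y ∉ Nb G (h n).R → y ∈ C)
    (hsub : C ⊆ (h n).C) :
    ∃ s : Step V, s.C = C ∧ s.I ⊆ insert n (h n).I ∧ Core G t (t * (t * d)) h (n + 1) s ∧
      x₁ ∈ s.R ∧ ∀ x₀ ∈ C, ∃ F : Finset V, F.card ≤ ((t + t * (t * d)) * d + 1) * 5 ∧
        ∀ x ∈ C, (x = x₀ ∨ G.Adj x₀ x) → ∀ r ∈ s.R, (x = r ∨ G.Adj x r) → r ∈ F := by
  classical
  have := Fintype.ofFinite V
  have cn := v.core n le_rfl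
  have hcov : ∀ x ∈ bd G C, ∃ l ∈ insert n (h n).I, x ∈ (h l).TS G := by
    rintro x ⟨hx, y, hy, e⟩
    by_cases h1 : x ∈ (h n).C
    · refine ⟨n, by simp, Or.inl ⟨?_, h1⟩⟩
      by_contra h2
      exact hx (hcl y hy x h1 e.symm h2)
    · obtain ⟨l, hl, h2⟩ := cn.cover x ⟨h1, y, hsub hy, e⟩
      exact ⟨l, Finset.mem_insert_of_mem hl, h2⟩
  obtain ⟨I, hI, hmin⟩ := ((insert n (h n).I).powerset.filter
    fun I => ∀ x ∈ bd G C, ∃ l ∈ I, x ∈ (h l).TS G).exists_min_image Finset.card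
    ⟨_, Finset.mem_filter.2 ⟨Finset.mem_powerset_self _, hcov⟩⟩
  obtain ⟨hI1, hI2⟩ := Finset.mem_filter.1 hI
  rw [Finset.mem_powerset] at hI1
  have hle : ∀ l ∈ I, l ≤ n := fun l hl => by
    rcases Finset.mem_insert.1 (hI1 hl) with e | e
    · omega
    · exact (cn.lt l e).le
  have hz : ∀ l, ∃ x, l ∈ I → x ∈ bd G C ∧ x ∈ (h l).TS G ∧
      ∀ l' ∈ I, x ∈ (h l').TS G → l' = l := by
    intro l
    by_cases hl : l ∈ I
    swap
    · exact ⟨x₁, fun h => absurd h hl⟩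
    by_contra hc
    push Not at hc
    have := hmin (I.erase l) (Finset.mem_filter.2 ⟨Finset.mem_powerset.2
      ((Finset.erase_subset _ _).trans hI1), fun x hx => by
        obtain ⟨l', hl', h1⟩ := hI2 x hx
        by_cases e : l' = l
        · obtain ⟨l'', h2, h3, h4⟩ := (hc x).2 hx (e ▸ h1)
          exact ⟨l'', Finset.mem_erase.2 ⟨h4, h2⟩, h3⟩
        · exact ⟨l', Finset.mem_erase.2 ⟨e, hl'⟩, h1⟩⟩)
    have := Finset.card_erase_lt_of_mem hl
    omega
  choose z hz using hz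
  have hIc : I.card ≤ t := ht I hI1 fun l hl => by
    rcases (hz l hl).2.1 with ⟨⟨r, hr, -⟩, -⟩ | ⟨i, hi, -⟩
    · exact ⟨r, hr⟩
    · obtain ⟨r, hr, -⟩ := (v.core l (hle l hl)).zadj i hi
      exact ⟨r, hr⟩
  let w : V → ℕ := fun x => ((Finset.range (n + 1)).filter fun l => x ∈ (h l).C).card
  have hw : ∀ x j, w x ≤ w j → ∀ l < n + 1, x ∈ (h l).C → j ∈ (h l).C := by
    intro x j hxj l hl hx
    by_contra hj
    have a1 : Finset.range (l + 1) ⊆ (Finset.range (n + 1)).filter fun l => x ∈ (h l).C := by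
      intro i hi
      rw [Finset.mem_range] at hi
      exact Finset.mem_filter.2 ⟨Finset.mem_range.2 (by omega), v.mono (by omega) (by omega) hx⟩
    have a2 : ((Finset.range (n + 1)).filter fun l => j ∈ (h l).C) ⊆ Finset.range l := by
      intro i hi
      obtain ⟨h1, h2⟩ := Finset.mem_filter.1 hi
      rw [Finset.mem_range] at h1 ⊢
      by_contra h3
      exact hj (v.mono (by omega) (by omega) h2)
    have b1 := Finset.card_le_card a1
    have b2 := Finset.card_le_card a2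
    simp only [Finset.card_range, w] at b1 b2 hxj
    omega
  obtain ⟨J, hJ1, hJ2, hJ3⟩ := exists_indep G w
    (Finset.univ.filter fun x => x ∈ bd G C ∧ ∀ l ∈ I, x ∉ (h l).T G)
  have hJ : ∀ x ∈ J, x ∈ bd G C ∧ ∀ l ∈ I, x ∉ (h l).T G := fun x hx =>
    (Finset.mem_filter.1 (hJ1 hx)).2
  have hJc : J.card ≤ t * (t * d) := by
    have a1 := alLe_biUnion (G := G) I (fun l => ⋃ i ∈ (h l).I, Nb G {(h l).z i}) (t * d)
      fun l hl => (alLe_biUnion (h l).I (fun i => Nb G {(h l).z i}) d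
        fun i _ => hd.alLe_Nb _).mono subset_rfl
        (Nat.mul_le_mul_right _ (v.core l (hle l hl)).icard)
    refine (a1 J (fun x hx => ?_) hJ2).trans (Nat.mul_le_mul_right _ hIc)
    obtain ⟨l, hl, h1⟩ := hI2 x (hJ x hx).1
    obtain ⟨i, hi, h2⟩ := h1.resolve_left ((hJ x hx).2 l hl)
    simp only [Set.mem_iUnion]
    exact ⟨l, hl, i, hi, _, rfl, Or.inr h2⟩
  obtain ⟨R, r1, r2, r3, r4, r5⟩ := exists_core hd hx₁ hC (I.image z ∪ J)
  have hzY : ∀ l ∈ I, z l ∈ I.image z ∪ J := fun l hl =>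
    Finset.mem_union_left _ (Finset.mem_image_of_mem _ hl)
  refine ⟨⟨C, I, R, z, J⟩, rfl, hI1, ⟨fun l hl => Nat.lt_succ_of_le (hle l hl), r1, r3,
    fun l hl => (hz l hl).1.1, fun l hl => ?_, fun l hl x hx e => (r4 _ (hzY l hl) x hx e).1,
    fun l hl => (hz l hl).2.1, fun l hl => (hz l hl).2.2, hIc, hJc, fun j hj => (hJ j hj).1.1,
    fun j hj x hx e => (r4 _ (Finset.mem_union_right _ hj) x hx e).1, hI2, fun x hx => ?_⟩, r2,
    fun x₀ hx₀ => ?_⟩
  · obtain ⟨y, hy, e⟩ := (hz l hl).1.2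
    exact (r4 _ (hzY l hl) y hy e).2
  · by_cases h1 : ∃ l ∈ I, x ∈ (h l).T G
    · exact Or.inl h1
    push Not at h1
    rcases hJ3 x (Finset.mem_filter.2 ⟨Finset.mem_univ _, hx, h1⟩) with h2 | ⟨j, hj, h2, h3⟩
    · exact Or.inr (Or.inl h2)
    · exact Or.inr (Or.inr ⟨j, hj, h2, hw x j h3⟩)
  · obtain ⟨F, f1, f2⟩ := r5 x₀ hx₀
    refine ⟨F, f1.trans ?_, f2⟩
    have a1 := Finset.card_union_le (I.image z) J
    have a2 := Finset.card_image_le (s := I) (f := z)
    exact Nat.mul_le_mul_right _ (Nat.succ_le_succ (Nat.mul_le_mul_right _ (by omega)))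

end Pool.Agent.Work.MP_7f4e13_co.S
end

-- merged part: Pool.Agent.Work.MP_7f4e13_co.S.StarP
section
/-!
The star partition theorem.
-/

namespace Pool.Agent.Work.MP_7f4e13_co.S

open Pool.Agent.Work.MP_97603a_co (Reach reach_seg)

variable {V : Type} {G : SimpleGraph V} {t a n d : ℕ} {h : ℕ → Step V}

theorem Valid.update (v : Valid G t a h n) {s : Step V} (c : Core G t a h (n + 1) s)
    (h1 : ∀ x ∈ s.C, x ∈ (h n).C ∧ x ∉ Nb G (h n).R) (h2 : s.I ⊆ insert n (h n).I) :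
    Valid G t a (Function.update h (n + 1) s) (n + 1) := by
  have e : ∀ l ≤ n, Function.update h (n + 1) s l = h l := fun l hl =>
    Function.update_of_ne (by omega) _ _
  refine ⟨fun m hm => ?_, fun m hm => ?_, fun m hm => ?_⟩
  · by_cases e' : m = n + 1
    · subst e'
      rw [Function.update_self]
      exact c.congr fun l hl => e l (by omega)
    · rw [e m (by omega)]
      exact (v.core m (by omega)).congr fun l hl => e l (by omega)
  · rw [e m (by omega)]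
    by_cases e' : m = n
    · subst e'; rwa [Function.update_self]
    · rw [e (m + 1) (by omega)]; exact v.next m (by omega)
  · rw [e m (by omega)]
    by_cases e' : m = n
    · subst e'; rwa [Function.update_self]
    · rw [e (m + 1) (by omega)]; exact v.act m (by omega)

open Classical in
/-- The number of steps in which `K` has lost a vertex. -/
noncomputable def nb (G : SimpleGraph V) (h : ℕ → Step V) (n : ℕ) (K : Finset V) : ℕ :=
  ((Finset.range (n + 1)).filter fun m => ∃ x ∈ K, x ∈ (h m).T G).card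

/-- `q` is a good partition of `D` after the history `h`. -/
def Good (G : SimpleGraph V) (h : ℕ → Step V) (n c s : ℕ) (D : Set V) (q : V → V) : Prop :=
  (∀ x ∈ D, q x ∈ D ∧ (q x = x ∨ G.Adj x (q x)) ∧ q (q x) = q x) ∧
    ∀ K : Finset V, (∀ x ∈ K, ∀ y ∈ K, x ≠ y → G.Adj x y) → ∀ K' ⊆ K, (∀ x ∈ K', x ∈ D) →
      Set.InjOn q K' → K'.card + c * nb G h n K ≤ c * s

theorem nb_update (s : Step V) (K : Finset V) :
    nb G h n K ≤ nb G (Function.update h (n + 1) s) (n + 1) K ∧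
      ((∃ x ∈ K, x ∈ s.T G) → nb G h n K + 1 ≤ nb G (Function.update h (n + 1) s) (n + 1) K) := by
  classical
  have e : ((Finset.range (n + 1)).filter fun m =>
      ∃ x ∈ K, x ∈ (Function.update h (n + 1) s m).T G) =
      (Finset.range (n + 1)).filter fun m => ∃ x ∈ K, x ∈ (h m).T G :=
    Finset.filter_congr fun m hm => by
      rw [Function.update_of_ne (Finset.mem_range.1 hm).ne]
  unfold nb
  rw [Finset.range_add_one (n := n + 1), Finset.filter_insert, Function.update_self]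
  split_ifs with h1
  · rw [Finset.card_insert_of_notMem (by simp)]
    simp only [e]
    omega
  · simp only [e]
    exact ⟨le_rfl, fun h2 => absurd h2 h1⟩

theorem exists_good [Finite V] (hd : SF G d)
    (ht : ∀ n h, Valid G t (t * (t * d)) h n → ∀ I ⊆ insert n (h n).I,
      (∀ l ∈ I, (h l).R.Nonempty) → I.card ≤ t) (k : ℕ) :
    ∀ n h, Valid G t (t * (t * d)) h n → ((h n).C \ Nb G (h n).R).ncard ≤ k →
      ∃ q, Good G h n (((t + t * (t * d)) * d + 1) * 5) (phi t (t * (t * d)) d + 1)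
        ((h n).C \ Nb G (h n).R) q := by
  classical
  induction k using Nat.strong_induction_on with
  | _ k ih =>
  intro n h v hk
  set c := ((t + t * (t * d)) * d + 1) * 5
  set s₀ := phi t (t * (t * d)) d + 1
  set D := (h n).C \ Nb G (h n).R with hD
  let comp : V → Set V := fun x => {y | Reach G.Adj D x y}
  have key : ∀ C : Set V, ∃ q, (∃ x ∈ D, comp x = C) → Good G h n c s₀ C q := by
    intro C
    by_cases hC : ∃ x ∈ D, comp x = C
    swap
    · exact ⟨id, fun h => absurd h hC⟩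
    obtain ⟨x₁, hx₁, rfl⟩ := hC
    have hCD : comp x₁ ⊆ D := fun y hy => Reach.right_mem hy
    obtain ⟨s, s1, s2, s3, s4, s5⟩ := exists_step hd v (ht n h v) (C := comp x₁) (x₁ := x₁)
      (Reach.refl hx₁) (conn_of_root x₁ fun y hy => Reach.restrict hy fun _ h _ => h)
      (fun x hx y hy e hy' => Reach.tail hx e ⟨hy, hy'⟩) fun y hy => (hCD hy).1
    have v' := v.update s3 (fun x hx => hCD (s1 ▸ hx)) s2
    have hlt : (s.C \ Nb G s.R).ncard < k := lt_of_lt_of_le (Set.ncard_lt_ncard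
      ⟨fun y hy => hCD (s1 ▸ hy.1), fun hs => (hs hx₁).2 (subset_Nb s4)⟩) hk
    obtain ⟨q', q1, q2⟩ := ih _ hlt (n + 1) _ v' (by rw [Function.update_self])
    rw [Function.update_self, s1] at q1 q2
    have hce : ∀ x, ∃ r, x ∈ Nb G s.R → r ∈ s.R ∧ (x = r ∨ G.Adj x r) ∧ (x ∈ s.R → r = x) := by
      intro x
      by_cases h1 : x ∈ s.R
      · exact ⟨x, fun _ => ⟨h1, Or.inl rfl, fun _ => rfl⟩⟩
      by_cases h2 : x ∈ Nb G s.R
      · obtain ⟨r, hr, e⟩ := h2
        exact ⟨r, fun _ => ⟨hr, e, fun h => absurd h h1⟩⟩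
      · exact ⟨x, fun h => absurd h h2⟩
    choose ce hce using hce
    refine ⟨fun x => if x ∈ Nb G s.R then ce x else q' x, fun _ => ⟨fun x hx => ?_,
      fun K hK K' hK' hin hinj => ?_⟩⟩
    · by_cases h1 : x ∈ Nb G s.R
      · obtain ⟨a1, a2, -⟩ := hce x h1
        simp only [h1, if_true, subset_Nb a1]
        exact ⟨s1 ▸ s3.sub a1, a2.imp Eq.symm id, (hce _ (subset_Nb a1)).2.2 a1⟩
      · obtain ⟨a1, a2, a3⟩ := q1 x ⟨hx, h1⟩
        simp only [h1, if_false, a1.2]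
        exact ⟨a1.1, a2, a3⟩
    · have a1 := q2 K hK (K'.filter fun x => ¬ x ∈ Nb G s.R)
        ((Finset.filter_subset _ _).trans hK')
        (fun x hx => ⟨hin x (Finset.mem_filter.1 hx).1, (Finset.mem_filter.1 hx).2⟩)
        (fun x hx y hy e => by
          rw [Finset.coe_filter] at hx hy
          exact hinj hx.1 hy.1 (by simp only [hx.2, hy.2, if_false, e]))
      have a2 := Finset.card_filter_add_card_filter_not (s := K') fun x => x ∈ Nb G s.R
      obtain ⟨a3, a4⟩ := nb_update (G := G) (h := h) (n := n) s K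
      rcases (K'.filter fun x => x ∈ Nb G s.R).eq_empty_or_nonempty with e | ⟨x₀, hx₀⟩
      · rw [e, Finset.card_empty] at a2
        have := Nat.mul_le_mul_left c a3
        omega
      · obtain ⟨b1, b2⟩ := Finset.mem_filter.1 hx₀
        obtain ⟨F, f1, f2⟩ := s5 x₀ (hin x₀ b1)
        have a5 : (K'.filter fun x => x ∈ Nb G s.R).card ≤ F.card := by
          refine Finset.card_le_card_of_injOn ce (fun x hx => ?_) fun x hx y hy e => ?_
          · rw [Finset.coe_filter] at hx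
            refine f2 x (hin x hx.1) ?_ _ (hce x hx.2).1 (hce x hx.2).2.1
            by_cases e : x = x₀
            · exact Or.inl e
            · exact Or.inr (hK x₀ (hK' b1) x (hK' hx.1) (Ne.symm e))
          · rw [Finset.coe_filter] at hx hy
            exact hinj hx.1 hy.1 (by simp only [hx.2, hy.2, if_true, e])
        have := Nat.mul_le_mul_left c (a4 ⟨x₀, hK' b1, b2, s1 ▸ hin x₀ b1⟩)
        rw [mul_add] at this
        omega
  choose Q hQ using key
  have hcomp : ∀ x y, y ∈ comp x → comp y = comp x := fun x y hy =>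
    Set.ext fun _ => ⟨fun h => Reach.trans hy h, fun h => (reach_symm hy).trans h⟩
  refine ⟨fun x => Q (comp x) x, fun x hx => ?_, fun K hK K' hK' hin hinj => ?_⟩
  · obtain ⟨a1, a2, a3⟩ := (hQ _ ⟨x, hx, rfl⟩).1 x (Reach.refl hx)
    refine ⟨Reach.right_mem a1, a2, ?_⟩
    simp only [hcomp x _ a1, a3]
  · rcases K'.eq_empty_or_nonempty with rfl | ⟨x₀, hx₀⟩
    · rw [Finset.card_empty, zero_add]
      exact Nat.mul_le_mul_left _ (births hd v K hK _ fun m hm => by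
        obtain ⟨h1, h2⟩ := Finset.mem_filter.1 hm
        exact ⟨by simpa [Nat.lt_succ_iff] using h1, h2⟩)
    · have hm : ∀ x ∈ K', x ∈ comp x₀ := fun x hx => by
        by_cases e : x₀ = x
        · exact e ▸ Reach.refl (hin x₀ hx₀)
        · exact (Reach.refl (hin x₀ hx₀)).tail (hK _ (hK' hx₀) _ (hK' hx) e) (hin x hx)
      exact (hQ _ ⟨x₀, hin x₀ hx₀, rfl⟩).2 K hK K' hK' hm fun x hx y hy e =>
        hinj hx hy (by simp only [hcomp _ _ (hm x hx), hcomp _ _ (hm y hy), e])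

theorem starPart (d N : ℕ) :
    ∃ w, ∀ (V : Type) [Finite V] (G : SimpleGraph V) (W : Type) [Finite W] (H : SimpleGraph W),
      Nat.card W ≤ N → SF G d → ¬ Model G H → ∃ q, StarPart G q w := by
  obtain ⟨t, ht⟩ := model_of_big d N
  refine ⟨((t + t * (t * d)) * d + 1) * 5 * (phi t (t * (t * d)) d + 1),
    fun V _ G W _ H hW hd hH => ?_⟩
  rcases isEmpty_or_nonempty V with hV | ⟨⟨x⟩⟩
  · exact ⟨id, fun v => Or.inl rfl, fun v => rfl, fun K _ _ => by simp [K.eq_empty_of_isEmpty]⟩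
  have v : Valid G t (t * (t * d)) (fun _ => ⟨Set.univ, ∅, ∅, fun _ => x, ∅⟩) 0 := by
    refine ⟨fun m _ => ?_, by simp, by simp⟩
    constructor <;> simp [Conn, bd]
  obtain ⟨q, q1, q2⟩ := exists_good hd (fun n h v I h1 h2 => by
    by_contra hc
    exact hH (ht W H hW V G _ _ n h I hd v h1 h2 (by omega))) _ 0 _ v le_rfl
  have hm : ∀ y : V, y ∈ Set.univ \ Nb G ∅ := fun y => by simp [Nb]
  refine ⟨q, fun y => (q1 y (hm y)).2.1, fun y => (q1 y (hm y)).2.2, fun K hK hinj => ?_⟩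
  have := q2 K hK K subset_rfl (fun y _ => hm y) hinj
  omega

end Pool.Agent.Work.MP_7f4e13_co.S
end

-- merged part: Pool.Agent.Work.MP_7f4e13_co.StarP
section
/-! Theorem P: partition into stars, every clique meeting boundedly many of them. -/

namespace Pool.Agent.Work.MP_7f4e13_co

open Pool.Agent.Work.MP_97603a_co Set

theorem indMinor_iff {V W : Type} {G : SimpleGraph V} {F : SimpleGraph W} :
    IndMinor G F ↔ S.Model G F :=
  ⟨fun ⟨Y, h, h'⟩ => ⟨Y, h.conn, fun w w' e => ⟨h.disj w w' e, h.adj w w', h' w w' e⟩⟩,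
    fun ⟨B, h, h'⟩ => ⟨B, ⟨h, fun w w' e => (h' w w' e).1, fun w w' e => (h' w w' e.ne).2.1 e⟩,
      fun w w' e => (h' w w' e).2.2⟩⟩

theorem star_partition (d n : ℕ) : ∃ w : ℕ, ∀ (V : Type) [Finite V] (G : SimpleGraph V)
    (W : Type) [Finite W] (F : SimpleGraph W), Nat.card W ≤ n → StarFree G d → ¬ IndMinor G F →
    ∃ q : V → V, (∀ v, q v = v ∨ G.Adj (q v) v) ∧ (∀ v, q (q v) = q v) ∧
      ∀ K : Set V, G.IsClique K → (q '' K).ncard ≤ w := by
  obtain ⟨w, hw⟩ := S.starPart d n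
  refine ⟨w, fun V _ G W _ F hW hd hF => ?_⟩
  obtain ⟨q, h1, h2, h3⟩ := hw V G W F hW hd (fun h => hF (indMinor_iff.2 h))
  refine ⟨q, fun v => (h1 v).imp id SimpleGraph.Adj.symm, h2, fun K hK => ?_⟩
  obtain ⟨K', k1, k2⟩ := Set.exists_subset_bijOn K q
  have hf := Set.toFinite K'
  have := h3 hf.toFinset (fun x hx y hy e => hK (k1 (hf.mem_toFinset.1 hx))
    (k1 (hf.mem_toFinset.1 hy)) e) (by simpa using k2.injOn)
  rwa [← k2.image_eq, k2.injOn.ncard_image, Set.ncard_eq_toFinset_card K' hf]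

end Pool.Agent.Work.MP_7f4e13_co
end

-- merged part: Pool.Agent.Work.MP_7f4e13_co.Quot
section
/-! Brambles and minors in quotients. -/

namespace Pool.Agent.Work.MP_7f4e13_co

open Pool.Agent.Work.MP_97603a_co Set

variable {V ι : Type} {G : SimpleGraph V} {X : Set V} {q : V → ι}

lemma Conn.image_quot {B : Set V} (hB : B ⊆ X) (h : Conn G B) : Conn (quot G X q) (q '' B) := by
  refine ⟨h.1.image q, ?_⟩
  rintro _ ⟨a, ha, rfl⟩ _ ⟨b, hb, rfl⟩
  refine (h.2 a ha b hb).ind (P := fun x => Reach (quot G X q).Adj (q '' B) (q a) (q x))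
    (Reach.refl ⟨a, ha, rfl⟩) fun x y hx ih e hy => ?_
  by_cases e' : q x = q y
  · exact e' ▸ ih
  · exact ih.tail ⟨e', x, hB hx.right_mem, y, hB hy, rfl, rfl, e⟩ ⟨y, hy, rfl⟩

theorem Br.quot [Finite V] {c t : ℕ} (hc : ∀ a, (fib X q a).ncard ≤ c) (h : Br G X (c * t + 1)) :
    Br (quot G X q) univ t := by
  classical
  obtain ⟨𝓑, h⟩ := h
  refine ⟨(fun B => q '' B) '' 𝓑, fun _ _ => subset_univ _, ?_, ?_, fun Z hZ => ?_⟩
  · rintro _ ⟨B, hB, rfl⟩
    exact (h.conn B hB).image_quot (h.sub B hB)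
  · rintro _ ⟨B, hB, rfl⟩ _ ⟨B', hB', rfl⟩
    rcases h.touch B hB B' hB' with ⟨a, ha, ha'⟩ | ⟨a, ha, b, hb, e⟩
    · exact Or.inl ⟨q a, ⟨a, ha, rfl⟩, ⟨a, ha', rfl⟩⟩
    · by_cases e' : q a = q b
      · exact Or.inl ⟨q a, ⟨a, ha, rfl⟩, ⟨b, hb, e'.symm⟩⟩
      · exact Or.inr ⟨_, ⟨a, ha, rfl⟩, _, ⟨b, hb, rfl⟩, e', a, h.sub B hB ha, b, h.sub B' hB' hb,
          rfl, rfl, e⟩
  · obtain ⟨B, hB, hZ'⟩ := h.ord (Z.biUnion fun a => (toFinite (fib X q a)).toFinset) (by
      refine Nat.lt_succ_of_le (Finset.card_biUnion_le.trans ?_)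
      refine (Finset.sum_le_card_nsmul _ _ c fun a _ => ?_).trans ?_
      · rw [← ncard_eq_toFinset_card]; exact hc a
      · rw [smul_eq_mul, mul_comm]; exact Nat.mul_le_mul_left _ hZ.le)
    refine ⟨_, ⟨B, hB, rfl⟩, ?_⟩
    rintro _ hz ⟨v, hv, rfl⟩
    exact hZ' v (Finset.mem_biUnion.2 ⟨_, hz, by simpa [fib] using h.sub B hB hv⟩) hv

/-- lifting connected sets through a choice of connected subsets of the fibres -/
lemma Conn.lift {W : SimpleGraph ι} {S : ι → Set V} {B : Set ι} (hB : Conn W B)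
    (hS : ∀ a ∈ B, Conn G (S a)) (hadj : ∀ a ∈ B, ∀ b ∈ B, W.Adj a b → Nb G (S a) (S b)) :
    Conn G (⋃ a ∈ B, S a) := by
  obtain ⟨a, ha⟩ := hB.1
  obtain ⟨x, hx⟩ := (hS a ha).1
  have hsub : ∀ b ∈ B, S b ⊆ ⋃ a ∈ B, S a := fun b hb => subset_biUnion_of_mem hb
  refine conn_of_root (hsub a ha hx) fun y hy => ?_
  obtain ⟨b, hb, hy⟩ := mem_iUnion₂.1 hy
  refine (hB.2 a ha b hb).ind (P := fun b => ∀ y ∈ S b, Reach G.Adj (⋃ a ∈ B, S a) x y)
    (fun y hy => ((hS a ha).2 x hx y hy).mono (hsub a ha)) (fun b c hb' ih e hc y hy => ?_) y hy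
  obtain ⟨u, hu, v, hv, e'⟩ := hadj b hb'.right_mem c hc e
  exact ((ih u hu).tail e' (hsub c hc hv)).trans (((hS c hc).2 v hv y hy).mono (hsub c hc))

/-- one round of sparsification -/
theorem round (t : ℕ) : ∃ g : ℕ, ∀ (V ι : Type) [Finite V] [Finite ι] (G : SimpleGraph V)
    (X : Set V) (q : V → ι), Br (quot G X q) univ g → ∃ T : ι → Set V,
      (∀ a, T a ⊆ fib X q a ∧ (T a).ncard ≤ 8) ∧ ∀ S : ι → Set V,
        (∀ a, T a ⊆ S a ∧ S a ⊆ fib X q a ∧ ((T a).Nonempty → Conn G (S a))) →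
        Br G (⋃ a, S a) t := by
  classical
  obtain ⟨g, hg⟩ := sparsify (t + 2)
  refine ⟨g, fun V ι _ _ G X q h => ?_⟩
  obtain ⟨W, hW, hdeg, 𝓑, h𝓑⟩ := hg ι _ h
  have hex : ∀ a b, W.Adj a b → ∃ p : V × V, p.1 ∈ fib X q a ∧ p.2 ∈ fib X q b ∧ G.Adj p.1 p.2 :=
    fun a b e => let ⟨_, u, hu, v, hv, h1, h2, h3⟩ := hW e; ⟨(u, v), ⟨hu, h1⟩, ⟨hv, h2⟩, h3⟩
  by_cases hV : IsEmpty V
  · exfalso
    obtain ⟨B, hB, -⟩ := h𝓑.ord ∅ (by simp)
    obtain ⟨a, ha⟩ := (h𝓑.conn B hB).1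
    obtain ⟨B', hB', h'⟩ := h𝓑.ord {a} (by simp)
    obtain ⟨b, hb⟩ := (h𝓑.conn B' hB').1
    obtain ⟨c, -, e⟩ := ((h𝓑.conn B hB).union (h𝓑.conn B' hB') (h𝓑.touch B hB B' hB')).exists_adj
      (Or.inl ha) (Or.inr hb) fun e => h' a (by simp) (e ▸ hb)
    obtain ⟨p, -⟩ := hex a c e
    exact hV.elim p.1
  have : Nonempty V := not_isEmpty_iff.1 hV
  choose! p hp using hex
  let T : ι → Set V := fun a =>
    (fun b => (p a b).1) '' nbr W univ a ∪ (fun b => (p b a).2) '' nbr W univ a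
  refine ⟨T, fun a => ⟨?_, ?_⟩, fun S hS => ?_⟩
  · rintro _ (⟨b, hb, rfl⟩ | ⟨b, hb, rfl⟩)
    · exact (hp a b hb.2).1
    · exact (hp b a hb.2.symm).2.1
  · have h1 := hdeg a trivial
    have h2 := ncard_image_le (f := fun b => (p a b).1) (toFinite (nbr W univ a))
    have h3 := ncard_image_le (f := fun b => (p b a).2) (toFinite (nbr W univ a))
    exact (ncard_union_le _ _).trans (by omega)
  have hadj : ∀ a b, W.Adj a b → Nb G (S a) (S b) := fun a b e =>
    ⟨_, (hS a).1 (Or.inl ⟨b, ⟨trivial, e⟩, rfl⟩), _, (hS b).1 (Or.inr ⟨a, ⟨trivial, e.symm⟩, rfl⟩),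
      (hp a b e).2.2⟩
  have hconn : ∀ B ∈ 𝓑, ∀ a ∈ B, Conn G (S a) := by
    intro B hB a ha
    obtain ⟨B', hB', h'⟩ := h𝓑.ord {a} (by simp)
    obtain ⟨b, hb⟩ := (h𝓑.conn B' hB').1
    obtain ⟨c, -, e⟩ := ((h𝓑.conn B hB).union (h𝓑.conn B' hB') (h𝓑.touch B hB B' hB')).exists_adj
      (Or.inl ha) (Or.inr hb) fun e => h' a (by simp) (e ▸ hb)
    exact (hS a).2.2 ⟨_, Or.inl ⟨c, ⟨trivial, e⟩, rfl⟩⟩
  refine ⟨(fun B => ⋃ a ∈ B, S a) '' 𝓑, ?_, ?_, ?_, fun Z hZ => ?_⟩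
  · rintro _ ⟨B, -, rfl⟩
    exact iUnion₂_subset fun a _ => subset_iUnion S a
  · rintro _ ⟨B, hB, rfl⟩
    exact (h𝓑.conn B hB).lift (hconn B hB) fun a _ b _ e => hadj a b e
  · rintro _ ⟨B, hB, rfl⟩ _ ⟨B', hB', rfl⟩
    rcases h𝓑.touch B hB B' hB' with ⟨a, ha, ha'⟩ | ⟨a, ha, b, hb, e⟩
    · obtain ⟨x, hx⟩ := (hconn B hB a ha).1
      exact Or.inl ⟨x, mem_biUnion ha hx, mem_biUnion ha' hx⟩
    · exact Or.inr ((hadj a b e).mono (subset_biUnion_of_mem ha) (subset_biUnion_of_mem hb))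
  · obtain ⟨B, hB, h'⟩ := h𝓑.ord (Z.image q) (Finset.card_image_le.trans_lt (by omega))
    refine ⟨_, ⟨B, hB, rfl⟩, fun z hz hz' => ?_⟩
    obtain ⟨a, ha, hz'⟩ := mem_iUnion₂.1 hz'
    exact h' _ (Finset.mem_image_of_mem q hz) (((hS a).2.1 hz').2 ▸ ha)

theorem Model.of_quot {W : Type} {F : SimpleGraph W} (hF : ∀ w, ∃ w', F.Adj w w')
    (hc : ∀ v ∈ X, Conn G (fib X q (q v))) {Y : W → Set ι} (h : Model (quot G X q) F Y) :
    Model G F (fun w => {v | v ∈ X ∧ q v ∈ Y w}) := by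
  have hne : ∀ w, ∀ a ∈ Y w, ∃ v ∈ X, q v = a := by
    intro w a ha
    obtain ⟨w', e⟩ := hF w
    obtain ⟨b, hb, b', hb', e'⟩ := h.adj w w' e
    by_cases hab : a = b
    · obtain ⟨-, u, hu, -, -, h1, -⟩ := e'
      exact ⟨u, hu, h1.trans hab.symm⟩
    · obtain ⟨c, -, -, u, hu, -, -, h1, -⟩ := (h.conn w).exists_adj ha hb hab
      exact ⟨u, hu, h1⟩
  refine ⟨fun w => ?_, fun w w' e => ?_, fun w w' e => ?_⟩
  · have := (h.conn w).lift (G := G) (S := fib X q) (fun a ha => by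
      obtain ⟨v, hv, rfl⟩ := hne w a ha
      exact hc v hv) fun a _ b _ ⟨_, u, hu, v, hv, h1, h2, h3⟩ => ⟨u, ⟨hu, h1⟩, v, ⟨hv, h2⟩, h3⟩
    convert this using 1
    ext v
    simp only [mem_setOf_eq, mem_iUnion, fib]
    exact ⟨fun h => ⟨_, h.2, h.1, rfl⟩, fun ⟨a, h1, h2, h3⟩ => ⟨h2, h3 ▸ h1⟩⟩
  · exact Set.disjoint_left.2 fun v hv hv' => Set.disjoint_left.1 (h.disj w w' e) hv.2 hv'.2
  · obtain ⟨a, ha, b, hb, -, u, hu, v, hv, h1, h2, h3⟩ := h.adj w w' e
    exact ⟨u, ⟨hu, h1 ▸ ha⟩, v, ⟨hv, h2 ▸ hb⟩, h3⟩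

end Pool.Agent.Work.MP_7f4e13_co
end

-- merged part: Pool.Agent.Work.MP_7f4e13_co.Rounds
section
/-! Rounds of sparsification in bounded degree graphs. -/

namespace Pool.Agent.Work.MP_7f4e13_co

open Pool.Agent.Work.MP_97603a_co Set

namespace RoundsAux

variable {V : Type} {G : SimpleGraph V} {X Y : Set V}

/-- connecting a set of terminals with few branch vertices -/
lemma connector [Finite V] {D : ℕ} (hY : Conn G Y) (hD : DegLe G Y D) (T : Set V) (hT : T ⊆ Y) :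
    ∃ S, T ⊆ S ∧ S ⊆ Y ∧ (T.Nonempty → Conn G S) ∧ {v | Brn G S v}.ncard ≤ T.ncard * (D + 1) := by
  induction T, toFinite T using Set.Finite.induction_on with
  | empty => exact ⟨∅, subset_rfl, empty_subset _, fun h => absurd h not_nonempty_empty, by
      simp [Brn]⟩
  | @insert t T ht hfin ih =>
    have htY := hT (mem_insert _ _)
    rw [ncard_insert_of_notMem ht hfin]
    rcases T.eq_empty_or_nonempty with rfl | hne
    · refine ⟨{t}, by simp, by simpa using htY, fun _ => conn_singleton t, ?_⟩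
      refine (ncard_le_ncard (t := {t}) fun v hv => hv.1).trans (by simp)
    obtain ⟨S, h1, h2, h3, h4⟩ := ih ((subset_insert _ _).trans hT)
    have hS := h3 hne
    obtain ⟨s0, hs0⟩ := hS.1
    obtain ⟨lvl, hl0, hl1, hl2⟩ := exists_bfs (G := G) h2
      fun u hu => ⟨s0, hs0, hY.2 _ (h2 hs0) u hu⟩
    obtain ⟨P, hP, htP, hinj, a, ha, haP, hr⟩ := hl2 t htY
    have hsub : S ∪ P ⊆ Y := union_subset h2 hP
    have hone : {v | v ∈ P ∧ lvl v = 1}.Subsingleton := fun x hx y hy =>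
      hinj hx.1 hy.1 (hx.2.trans hy.2.symm)
    refine ⟨S ∪ P, insert_subset (Or.inr htP) (h1.trans subset_union_left), hsub,
      fun _ => hS.union (conn_of_root haP hr) (Or.inl ⟨a, ha, haP⟩), ?_⟩
    have h5 : {v | Brn G (S ∪ P) v} ⊆ {v | Brn G S v} ∪ ball G Y {v | v ∈ P ∧ lvl v = 1} 1 := by
      intro v hv
      by_contra hc
      rw [mem_union, not_or] at hc
      by_cases hvS : v ∈ S
      · refine hc.1 ⟨hvS, hv.2.trans (ncard_le_ncard ?_)⟩
        rintro u ⟨hu | hu, e⟩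
        · exact ⟨hu, e⟩
        · refine ⟨(hl0 u (hP hu)).1 ?_, e⟩
          have h6 := hl1 v (h2 hvS) u (hP hu) e
          rw [(hl0 v (h2 hvS)).2 hvS] at h6
          by_contra h7
          exact hc.2 (ball_succ_of_adj (r := 0) ⟨hu, by omega⟩ e.symm (h2 hvS))
      · have hvP : v ∈ P := hv.1.resolve_left hvS
        have h6 : lvl v ≠ 0 := fun e => hvS ((hl0 v (hP hvP)).1 e)
        have h7 : lvl v ≠ 1 := fun e => hc.2 (subset_ball 1 ⟨hvP, e⟩)
        have h8 : ∀ u ∈ nbr G (S ∪ P) v, u ∈ P := by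
          rintro u ⟨hu | hu, e⟩
          · have := hl1 u (h2 hu) v (hP hvP) e.symm
            rw [(hl0 u (h2 hu)).2 hu] at this
            omega
          · exact hu
        have h9 : (nbr G (S ∪ P) v).ncard ≤ ({lvl v - 1, lvl v + 1} : Set ℕ).ncard := by
          refine ncard_le_ncard_of_injOn lvl (fun u hu => ?_) (hinj.mono h8) (toFinite _)
          have e1 := hl1 u (hP (h8 u hu)) v (hP hvP) hu.2.symm
          have e2 := hl1 v (hP hvP) u (hP (h8 u hu)) hu.2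
          have e3 : lvl u ≠ lvl v := fun e => hu.2.ne' (hinj (h8 u hu) hvP e)
          simp only [mem_insert_iff, mem_singleton_iff]
          omega
        have := (hv.2.trans h9).trans (ncard_insert_le _ _)
        simp at this
    have h6 := ncard_ball_le hD (A := {v | v ∈ P ∧ lvl v = 1}) (fun v hv => hP hv.1) 1
    have h7 := (ncard_le_one_iff_subsingleton).2 hone
    have h8 := (ncard_le_ncard h5).trans (ncard_union_le _ _)
    nlinarith

/-- greedy colouring -/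
lemma exists_col [Finite V] (r : V → V → Prop) (hr : ∀ u v, r u v → r v u) (L : ℕ) (X : Set V)
    (h : ∀ v ∈ X, {u | u ∈ X ∧ r v u}.ncard ≤ L) :
    ∃ col : V → ℕ, (∀ v, col v < L + 1) ∧ ∀ u ∈ X, ∀ v ∈ X, r u v → col u = col v → u = v := by
  classical
  induction X, toFinite X using Set.Finite.induction_on with
  | empty => exact ⟨fun _ => 0, by simp, by simp⟩
  | @insert t T ht hfin ih =>
    obtain ⟨col, h1, h2⟩ := ih fun v hv => by
      refine le_trans (ncard_le_ncard ?_) (h v (mem_insert_of_mem _ hv))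
      exact fun u hu => ⟨mem_insert_of_mem _ hu.1, hu.2⟩
    obtain ⟨c, hc, hc'⟩ : ∃ c < L + 1, c ∉ col '' {u | u ∈ insert t T ∧ r t u} := by
      by_contra hc
      push Not at hc
      have h3 := (ncard_le_ncard (s := Iio (L + 1)) hc).trans
        ((ncard_image_le (toFinite _)).trans (h t (mem_insert _ _)))
      simp at h3
    refine ⟨Function.update col t c, fun v => ?_, ?_⟩
    · by_cases e : v = t
      · rwa [e, Function.update_self]
      · rw [Function.update_of_ne e]; exact h1 v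
    · have hne : ∀ v ∈ T, v ≠ t := fun v hv e => ht (e ▸ hv)
      rintro u (rfl | hu) v (rfl | hv) e
      · exact fun _ => rfl
      · rw [Function.update_self, Function.update_of_ne (hne v hv)]
        exact fun e' => absurd ⟨v, ⟨Or.inr hv, e⟩, e'.symm⟩ hc'
      · rw [Function.update_self, Function.update_of_ne (hne u hu)]
        exact fun e' => absurd ⟨u, ⟨Or.inr hu, hr _ _ e⟩, e'⟩ hc'
      · rw [Function.update_of_ne (hne u hu), Function.update_of_ne (hne v hv)]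
        exact h2 u hu v hv e

/-- every cluster of branch vertices through `v` is small -/
def Sm (G : SimpleGraph V) (X : Set V) (c : ℕ) (v : V) : Prop :=
  ∀ K, Conn G K → (∀ x ∈ K, Brn G X x) → v ∈ K → K.ncard ≤ c

lemma Sm.mono [Finite V] {c : ℕ} {v : V} (h : Sm G X c v) (hY : Y ⊆ X) : Sm G Y c v :=
  fun K h1 h2 h3 => h K h1 (fun x hx => (h2 x hx).mono hY) h3

lemma lt_ncard_ball [Finite V] {K : Set V} {c : ℕ} {v : V} (hK : Conn G K) (hv : v ∈ K)
    (hc : c < K.ncard) : c < (ball G K {v} c).ncard := by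
  by_cases h : K ⊆ ball G K {v} c
  · exact hc.trans_le (ncard_le_ncard h)
  obtain ⟨u, hu, hu'⟩ := not_subset.1 h
  obtain ⟨P, h1, h2, h3⟩ := exists_long_pth (hK.2 v hv u hu) hu'
  have := ncard_le_ncard_of_injOn (s := Iic c) (t := ball G K {v} c) P.p
    (fun i hi => ball_mono_r hi (P.mem_ball h2 h1 (h3.le.trans' hi)))
    (fun i hi j hj => P.inj i (h3.le.trans' hi) j (h3.le.trans' hj)) (toFinite _)
  simpa [Nat.succ_le_iff] using this

lemma one_round (D t : ℕ) : ∃ g : ℕ, ∀ (V : Type) [Finite V] (G : SimpleGraph V) (X Γ : Set V),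
    DegLe G X D → Γ ⊆ X → (∀ u ∈ Γ, ∀ v ∈ Γ, (ball G X {u} (8 * (D + 1) + 1) ∩
      ball G X {v} (8 * (D + 1) + 1)).Nonempty → u = v) → Br G X g →
    ∃ X' ⊆ X, Br G X' t ∧ ∀ v ∈ Γ, Sm G X' (8 * (D + 1)) v := by
  classical
  obtain ⟨g, hg⟩ := round t
  set c := 8 * (D + 1) with hc
  refine ⟨(D + 1) ^ (c + 1) * g + 1, fun V _ G X Γ hD hΓ hdisj h => ?_⟩
  let q : V → V := fun u => if h : ∃ v ∈ Γ, u ∈ ball G X {v} (c + 1) then h.choose else u
  have hq1 : ∀ v ∈ Γ, ∀ u ∈ ball G X {v} (c + 1), q u = v := by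
    intro v hv u hu
    have h1 : ∃ v ∈ Γ, u ∈ ball G X {v} (c + 1) := ⟨v, hv, hu⟩
    simp only [q, dif_pos h1]
    exact hdisj _ h1.choose_spec.1 v hv ⟨u, h1.choose_spec.2, hu⟩
  have hq2 : ∀ v ∈ Γ, fib X q v = ball G X {v} (c + 1) := by
    intro v hv
    ext u
    refine ⟨fun hu => ?_, fun hu =>
      ⟨ball_subset (singleton_subset_iff.2 (hΓ hv)) _ hu, hq1 v hv u hu⟩⟩
    by_cases h1 : ∃ v ∈ Γ, u ∈ ball G X {v} (c + 1)
    · obtain ⟨v', hv', hu'⟩ := h1
      rwa [← hu.2, hq1 v' hv' u hu']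
    · have : u = v := by simpa only [q, dif_neg h1] using hu.2
      exact this ▸ subset_ball _ rfl
  have hq3 : ∀ v ∉ Γ, fib X q v ⊆ {v} := by
    intro v hv u hu
    by_cases h1 : ∃ v ∈ Γ, u ∈ ball G X {v} (c + 1)
    · obtain ⟨v', hv', hu'⟩ := h1
      exact absurd ((hq1 v' hv' u hu').symm.trans hu.2 ▸ hv') hv
    · simpa only [q, dif_neg h1, mem_singleton_iff] using hu.2
  obtain ⟨T, hT, hS⟩ := hg V V G X q (Br.quot (c := (D + 1) ^ (c + 1)) (fun a => by
    by_cases ha : a ∈ Γ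
    · rw [hq2 a ha]
      simpa using ncard_ball_le hD (singleton_subset_iff.2 (hΓ ha)) (c + 1)
    · exact (ncard_le_ncard (hq3 a ha)).trans (by simpa using Nat.one_le_pow _ _ (by omega))) h)
  have hex : ∀ a, ∃ S, (T a ⊆ S ∧ S ⊆ fib X q a ∧ ((T a).Nonempty → Conn G S)) ∧
      (a ∈ Γ → {v | Brn G S v}.ncard ≤ c) := by
    intro a
    by_cases ha : a ∈ Γ
    · obtain ⟨S, h1, h2, h3, h4⟩ := connector (conn_ball a (c + 1))
        (hD.mono (ball_subset (singleton_subset_iff.2 (hΓ ha)) _)) (T a) (hq2 a ha ▸ (hT a).1)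
      exact ⟨S, ⟨h1, hq2 a ha ▸ h2, h3⟩, fun _ => h4.trans (Nat.mul_le_mul_right _ (hT a).2)⟩
    · refine ⟨T a, ⟨subset_rfl, (hT a).1, fun hne => ?_⟩, fun h => absurd h ha⟩
      rw [(hne.subset_singleton_iff.1 ((hT a).1.trans (hq3 a ha)))]
      exact conn_singleton a
  choose S hS1 hS2 using hex
  have hX' : (⋃ a, S a) ⊆ X := iUnion_subset fun a u hu => ((hS1 a).2.1 hu).1
  refine ⟨_, hX', hS S hS1, fun v hv K h1 h2 h3 => ?_⟩
  by_contra h4
  have hKX : K ⊆ X := fun x hx => hX' (h2 x hx).1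
  have h5 : ∀ u ∈ ⋃ a, S a, u ∈ ball G X {v} (c + 1) → u ∈ S v := by
    intro u hu hu'
    obtain ⟨a, ha⟩ := mem_iUnion.1 hu
    rwa [← hq1 v hv u hu', ((hS1 a).2.1 ha).2]
  have h6 : ball G K {v} c ⊆ {x | Brn G (S v) x} := by
    intro x hx
    have hxK := ball_subset (singleton_subset_iff.2 h3) c hx
    have hxX := ball_mono hKX subset_rfl c hx
    refine ⟨h5 x (h2 x hxK).1 (ball_succ_of_mem hxX), (h2 x hxK).2.trans (ncard_le_ncard ?_)⟩
    exact fun u hu => ⟨h5 u hu.1 (ball_succ_of_adj hxX hu.2 (hX' hu.1)), hu.2⟩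
  exact absurd ((ncard_le_ncard h6).trans (hS2 v hv))
    (not_le.2 (lt_ncard_ball h1 h3 (not_le.1 h4)))

lemma rounds (D t L : ℕ) : ∃ g : ℕ, ∀ (V : Type) [Finite V] (G : SimpleGraph V) (X : Set V)
    (col : V → ℕ), DegLe G X D → (∀ u ∈ X, ∀ v ∈ X, (ball G X {u} (8 * (D + 1) + 1) ∩
      ball G X {v} (8 * (D + 1) + 1)).Nonempty → col u = col v → u = v) → Br G X g →
    ∃ X' ⊆ X, Br G X' t ∧ ∀ v, col v < L → Sm G X' (8 * (D + 1)) v := by
  induction L with
  | zero => exact ⟨t, fun V _ G X col _ _ h => ⟨X, subset_rfl, h, by simp⟩⟩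
  | succ L ih =>
    obtain ⟨g1, h1⟩ := ih
    obtain ⟨g, hg⟩ := one_round D g1
    refine ⟨g, fun V _ G X col hD hcol h => ?_⟩
    obtain ⟨X1, hX1, h2, h3⟩ := hg V G X {v | v ∈ X ∧ col v = L} hD (fun v hv => hv.1)
      (fun u hu v hv e => hcol u hu.1 v hv.1 e (hu.2.trans hv.2.symm)) h
    obtain ⟨X2, hX2, h4, h5⟩ := h1 V G X1 col (hD.mono hX1) (fun u hu v hv e =>
      hcol u (hX1 hu) v (hX1 hv) (e.mono (inter_subset_inter (ball_mono hX1 subset_rfl _)
        (ball_mono hX1 subset_rfl _)))) h2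
    refine ⟨X2, hX2.trans hX1, h4, fun v hv => ?_⟩
    rcases Nat.lt_succ_iff_lt_or_eq.1 hv with e | e
    · exact h5 v e
    · exact fun K h6 h7 h8 => (h3 v ⟨hX1 (hX2 (h7 v h8).1), e⟩).mono hX2 K h6 h7 h8

end RoundsAux

open RoundsAux

theorem small_clusters (D : ℕ) : ∃ c : ℕ, ∀ t : ℕ, ∃ g : ℕ, ∀ (V : Type) [Finite V]
    (G : SimpleGraph V) (X0 : Set V), DegLe G X0 D → Br G X0 g → ∃ X ⊆ X0, Br G X t ∧
      ∀ K, Conn G K → (∀ v ∈ K, Brn G X v) → K.ncard ≤ c := by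
  refine ⟨8 * (D + 1), fun t => ?_⟩
  set r := 8 * (D + 1) + 1 with hr
  obtain ⟨g, hg⟩ := rounds D t ((D + 1) ^ (r + r) + 1)
  refine ⟨g, fun V _ G X0 hD h => ?_⟩
  obtain ⟨col, h1, h2⟩ := exists_col
    (fun u v => (ball G X0 {u} r ∩ ball G X0 {v} r).Nonempty) (fun u v h => inter_comm _ _ ▸ h)
    ((D + 1) ^ (r + r)) X0 fun v hv => by
      refine (ncard_le_ncard (t := ball G X0 {v} (r + r)) ?_).trans
        (by simpa using ncard_ball_le hD (singleton_subset_iff.2 hv) (r + r))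
      rintro u ⟨hu, x, hx, hx'⟩
      rw [← ball_ball]
      exact ball_mono subset_rfl (singleton_subset_iff.2 hx) r (mem_ball_symm hu hx')
  obtain ⟨X, hX, h3, h4⟩ := hg V G X0 col hD h2 h
  exact ⟨X, hX, h3, fun K h5 h6 => let ⟨v, hv⟩ := h5.1; h4 v (h1 v) K h5 h6 hv⟩

end Pool.Agent.Work.MP_7f4e13_co
end

-- merged part: Pool.Agent.Work.MP_7f4e13_co.Bridge
section
/-! From branch sets to deletions and contractions. -/

namespace Pool.Agent.Work.MP_7f4e13_co

open Pool.Agent.Work.MP_97603a_co Set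

lemma Conn.image {V V' : Type} {G : SimpleGraph V} {G' : SimpleGraph V'} {S : Set V}
    (h : Conn G S) (f : V → V')
    (hf : ∀ x ∈ S, ∀ y ∈ S, G.Adj x y → f x = f y ∨ G'.Adj (f x) (f y)) : Conn G' (f '' S) := by
  refine ⟨h.1.image f, ?_⟩
  rintro _ ⟨a, ha, rfl⟩ _ ⟨b, hb, rfl⟩
  refine (h.2 a ha b hb).ind (P := fun x => Reach G'.Adj (f '' S) (f a) (f x))
    (Reach.refl ⟨a, ha, rfl⟩) fun x y hx ih e hy => ?_
  rcases hf x hx.right_mem y hy e with e' | e'
  · exact e' ▸ ih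
  · exact ih.tail e' ⟨y, hy, rfl⟩

lemma IndMinor.del {V W : Type} {G : SimpleGraph V} {F : SimpleGraph W} {Y : W → Set V}
    (h : Model G F Y) (h' : ∀ w w', w ≠ w' → Nb G (Y w) (Y w') → F.Adj w w') {v : V}
    (hv : ∀ w, v ∉ Y w) : IndMinor (G.induce {x | x ≠ v}) F := by
  have hne : ∀ {w x}, x ∈ Y w → x ≠ v := fun {w x} hx e => hv w (e ▸ hx)
  refine ⟨fun w => Subtype.val ⁻¹' Y w, ⟨fun w => ⟨?_, fun a ha b hb => ?_⟩,
    fun w w' e => (h.disj w w' e).preimage _, fun w w' e => ?_⟩, fun w w' e h1 => ?_⟩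
  · obtain ⟨x, hx⟩ := (h.conn w).1
    exact ⟨⟨x, hne hx⟩, hx⟩
  · exact ((h.conn w).2 _ ha _ hb).ind (P := fun x => ∀ hx : x ≠ v,
      Reach (G.induce {x | x ≠ v}).Adj (Subtype.val ⁻¹' Y w) a ⟨x, hx⟩) (fun _ => Reach.refl ha)
      (fun x y hx ih e hy _ => (ih (hne hx.right_mem)).tail e hy) b.2
  · obtain ⟨x, hx, y, hy, e'⟩ := h.adj w w' e
    exact ⟨⟨x, hne hx⟩, hx, ⟨y, hne hy⟩, hy, e'⟩
  · obtain ⟨x, hx, y, hy, e'⟩ := h1
    exact h' w w' e ⟨x, hx, y, hy, e'⟩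

lemma IndMinor.con {V W : Type} {G : SimpleGraph V} {F : SimpleGraph W} {Y : W → Set V}
    (h : Model G F Y) (h' : ∀ w w', w ≠ w' → Nb G (Y w) (Y w') → F.Adj w w') {u v : V} {w0 : W}
    (hu : u ∈ Y w0) (hv : v ∈ Y w0) (e : G.Adj u v) : IndMinor (contract G u v) F := by
  classical
  let f : V → {x // x ≠ v} := fun x => if h : x = v then ⟨u, e.ne⟩ else ⟨x, h⟩
  have huniq : ∀ {x w w'}, x ∈ Y w → x ∈ Y w' → w = w' := fun {x w w'} h1 h2 => by
    by_contra e
    exact Set.disjoint_left.1 (h.disj w w' e) h1 h2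
  have hf : ∀ x y, G.Adj x y → f x = f y ∨ (contract G u v).Adj (f x) (f y) := by
    intro x y hxy
    by_cases e1 : f x = f y
    · exact Or.inl e1
    refine Or.inr ((SimpleGraph.fromRel_adj _ _ _).2 ⟨e1, ?_⟩)
    by_cases hx : x = v <;> by_cases hy : y = v <;> simp only [f, hx, hy, dif_pos, dif_neg,
      not_false_eq_true]
    · exact absurd (hx.trans hy.symm) hxy.ne
    · exact Or.inl (Or.inr ⟨trivial, hx ▸ hxy⟩)
    · exact Or.inr (Or.inr ⟨trivial, hy ▸ hxy.symm⟩)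
    · exact Or.inl (Or.inl hxy)
  have hmem : ∀ {x w}, x ∈ Y w → (f x).1 ∈ Y w := fun {x w} hx => by
    by_cases e1 : x = v
    · simp only [f, dif_pos e1]
      exact huniq hv (e1 ▸ hx) ▸ hu
    · simpa only [f, dif_neg e1] using hx
  have hsub : ∀ {a w}, a ∈ f '' Y w → a.1 ∈ Y w := by
    rintro _ w ⟨x, hx, rfl⟩
    exact hmem hx
  refine ⟨fun w => f '' Y w, ⟨fun w => (h.conn w).image f fun x _ y _ => hf x y,
    fun w w' e1 => Set.disjoint_left.2 fun a h1 h2 => e1 (huniq (hsub h1) (hsub h2)),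
    fun w w' e1 => ?_⟩, fun w w' e1 h1 => h' w w' e1 ?_⟩
  · obtain ⟨x, hx, y, hy, e'⟩ := h.adj w w' e1
    refine ⟨_, ⟨x, hx, rfl⟩, _, ⟨y, hy, rfl⟩, (hf x y e').resolve_left fun e2 => ?_⟩
    exact e1.ne (huniq (hmem hx) (e2 ▸ hmem hy))
  · obtain ⟨a, ha, b, hb, e'⟩ := h1
    rcases ((SimpleGraph.fromRel_adj _ _ _).1 e').2 with (h2 | h2) | h2 | h2
    · exact ⟨_, hsub ha, _, hsub hb, h2⟩
    · exact ⟨v, huniq hu (h2.1 ▸ hsub ha) ▸ hv, _, hsub hb, h2.2⟩
    · exact ⟨_, hsub ha, _, hsub hb, h2.symm⟩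
    · exact ⟨_, hsub ha, v, huniq hu (h2.1 ▸ hsub hb) ▸ hv, h2.2.symm⟩

theorem IndMinor.isIndMinor {W : Type} {F : SimpleGraph W} (n : ℕ) : ∀ (V : Type) [Finite V]
    (G : SimpleGraph V), Nat.card V ≤ n → IndMinor G F → IsIndMinor F G := by
  have base : ∀ (V : Type) (G : SimpleGraph V) (Y : W → Set V), Model G F Y →
      (∀ w w', w ≠ w' → Nb G (Y w) (Y w') → F.Adj w w') → (∀ v, ∃ w, v ∈ Y w) →
      (∀ w, (Y w).Subsingleton) → IsIndMinor F G := by
    intro V G Y h h' h1 h2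
    choose f hf using fun w => (h.conn w).1
    have hinj : Function.Injective f := fun w w' e => by
      by_contra e'
      exact Set.disjoint_left.1 (h.disj w w' e') (hf w) (e ▸ hf w')
    have hsurj : Function.Surjective f := fun v =>
      let ⟨w, hw⟩ := h1 v; ⟨w, h2 w (hf w) hw⟩
    refine IsIndMinor.iso ⟨⟨Equiv.ofBijective f ⟨hinj, hsurj⟩, fun {w w'} => ⟨fun e => ?_,
      fun e => ?_⟩⟩⟩
    · exact h' w w' (fun e' => e.ne (congrArg _ e')) ⟨_, hf w, _, hf w', e⟩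
    · obtain ⟨x, hx, y, hy, e'⟩ := h.adj w w' e
      rwa [h2 w hx (hf w), h2 w' hy (hf w')] at e'
  have hcard : ∀ (V : Type) [Finite V] (v : V), Nat.card {x // x ≠ v} < Nat.card V :=
    fun V _ v => Finite.card_subtype_lt (x := v) (by simp)
  induction n with
  | zero =>
    intro V _ G hn ⟨Y, h, h'⟩
    have : ∀ v : V, False := fun v => by have := hcard V v; omega
    exact base V G Y h h' (fun v => (this v).elim) fun w v => (this v).elim
  | succ n ih =>
    intro V _ G hn ⟨Y, h, h'⟩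
    by_cases h1 : ∀ v, ∃ w, v ∈ Y w
    · by_cases h2 : ∀ w, (Y w).Subsingleton
      · exact base V G Y h h' h1 h2
      · push Not at h2
        obtain ⟨w, a, ha, b, hb, hab⟩ := h2
        obtain ⟨c, hc, e⟩ := (h.conn w).exists_adj ha hb hab
        exact IsIndMinor.con a c e (ih _ _ (by have := hcard V c; omega)
          (IndMinor.con h h' ha hc e))
    · push Not at h1
      obtain ⟨v, hv⟩ := h1
      exact IsIndMinor.del v (ih _ _ (Nat.le_of_lt_succ ((hcard V v).trans_le hn))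
        (IndMinor.del h h' hv))

theorem starFree_of_isEmpty {V : Type} {G : SimpleGraph V} {d : ℕ}
    (h : IsEmpty (completeBipartiteGraph (Fin 1) (Fin d) ↪g G)) : StarFree G d := by
  intro v S h1 h2
  by_contra hc
  let f : Fin d → V := fun i => S.equivFin.symm (Fin.castLE (not_lt.1 hc) i)
  have hf : Function.Injective f := fun _ _ e =>
    Fin.castLE_injective _ (S.equivFin.symm.injective (Subtype.ext e))
  have hm : ∀ i, f i ∈ S := fun _ => Subtype.prop _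
  refine h.elim ⟨⟨Sum.elim (fun _ => v) f, ?_⟩, ?_⟩
  · rintro (a | a) (b | b) e
    · exact congrArg _ (Subsingleton.elim _ _)
    · exact absurd e (h1 _ (hm b)).ne
    · exact absurd e (h1 _ (hm a)).ne'
    · exact congrArg _ (hf e)
  · rintro (a | a) (b | b)
    · simp
    · simpa using h1 _ (hm b)
    · simpa using (h1 _ (hm a)).symm
    · simpa using h2 _ (hm a) _ (hm b)

theorem exists_indep_of_le_treeAlpha {V : Type} [Finite V] {G : SimpleGraph V} {f : ℕ}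
    (h : f + 1 ≤ treeAlpha G) (n : ℕ) (T : SimpleGraph (Fin n)) (B : Fin n → Finset V)
    (hT : IsTD G T B) : ∃ t, ∃ S ⊆ B t, (∀ x ∈ S, ∀ y ∈ S, ¬ G.Adj x y) ∧ f ≤ S.card := by
  classical
  by_contra hc
  push Not at hc
  refine absurd (h.trans (Nat.sInf_le (m := f) ⟨⟨Fin n, inferInstance, T, hT.tree,
    fun t => ↑(B t), hT.cover, hT.edge, hT.conn⟩, fun t => ?_⟩)) (by omega)
  obtain ⟨s, hs⟩ := (G.induce (↑(B t) : Set V)).exists_isNIndepSet_indepNum
  have := hc t (s.map (Function.Embedding.subtype _)) (fun x hx => by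
    obtain ⟨y, -, rfl⟩ := Finset.mem_map.1 hx
    exact y.2) fun x hx y hy e => by
    obtain ⟨x', hx', rfl⟩ := Finset.mem_map.1 hx
    obtain ⟨y', hy', rfl⟩ := Finset.mem_map.1 hy
    exact hs.isIndepSet hx' hy' (fun e' => e.ne (congrArg _ e')) e
  rw [Finset.card_map, hs.card_eq] at this
  exact this.le

end Pool.Agent.Work.MP_7f4e13_co
end
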